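import Pool.Agent.P.MP_29765e_al.All.Trunc

set_option autoImplicit false

namespace Pool.Agent.P.MP_29765e_al.All

open MvPolynomial TrivSqZeroExt

/-- The truncated ring of functions of the generic matrix with its first order thickening. -/
structure TD (p : ℕ) [Fact p.Prime] where
  T : Type
  T' : Type
  [cT : CommRing T]
  [cT' : CommRing T']
  [aT : Algebra (ZMod p) T]
  [aT' : Algebra (ZMod p) T']
  [fT : Module.Finite (ZMod p) T]
  [fT' : Module.Finite (ZMod p) T']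
  D : T →ₗ[ZMod p] T
  D' : T' →ₗ[ZMod p] T'
  hD : LDer D
  hD' : LDer D'
  j : T →ₐ[ZMod p] T'
  jD : ∀ a, D' (j a) = j (D a)
  E : T' →ₗ[ZMod p] T'
  hE : LDer E
  ED : ∀ a, D' (E a) = E (D' a)
  ε : T →ₐ[ZMod p] ZMod p
  εD : ∀ a, ε (D a) = 0
  frob : ∀ a, a ^ p = algebraMap _ _ (ε a)
  x : Fin 3 → T
  xD : IsVec D x
  εx : ∀ i, ε (x i) = 0
  ψ : Fin 3 → T' →ₗ[ZMod p] T
  Φ : T →ₗ[ZMod p] T
  ψ0 : ∀ y, ψ 0 (D' y) = D (ψ 0 y) - (ψ 1 y + ψ 1 y)
  ψ1 : ∀ y, ψ 1 (D' y) = D (ψ 1 y)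
  ψ2 : ∀ y, ψ 2 (D' y) = D (ψ 2 y) + ψ 0 y
  ψw : ∀ a b f, ψ a (E (j (x b)) * j f) = if a = b then f - (D (Φ f) - Φ (D f)) else 0

attribute [instance] TD.cT TD.cT' TD.aT TD.aT' TD.fT TD.fT'

section

variable {k : Type} [Field k]

/-- Powers of the ideal of the variables. -/
noncomputable abbrev JJ (k : Type) [Field k] (n : ℕ) : Ideal (PP k) := idealOfVars (Fin 3) k ^ n

theorem memJ {n : ℕ} {f : PP k} : f ∈ JJ k n ↔ ∀ i < n, homogeneousComponent i f = 0 := by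
  rw [mem_pow_idealOfVars_iff']
  constructor
  · intro h i hi
    ext d
    rw [coeff_homogeneousComponent]
    split_ifs with e
    · exact h d (e ▸ hi)
    · rfl
  · intro h d hd
    have := congrArg (coeff d) (h _ hd)
    rwa [coeff_homogeneousComponent, if_pos rfl] at this

theorem DP_J {n : ℕ} {f : PP k} (h : f ∈ JJ k n) : DP k f ∈ JJ k n :=
  memJ.2 fun i hi => by rw [DP_comp, memJ.1 h i hi, map_zero]

theorem sub_comp_J {n : ℕ} {f : PP k} (h : f ∈ JJ k n) :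
    f - homogeneousComponent n f ∈ JJ k (n + 1) :=
  memJ.2 fun i hi => by
    rw [map_sub, homogeneousComponent_of_mem (homogeneousComponent_isHomogeneous n f)]
    split_ifs with e
    · rw [e, sub_self]
    · rw [memJ.1 h i (by omega), sub_zero]

theorem exists_lift {V : Type} [AddCommGroup V] [Module k V] (I : Ideal (PP k))
    (F : PP k →ₗ[k] V) (h : ∀ f ∈ I, F f = 0) :
    ∃ G : (PP k ⧸ I) →ₗ[k] V, ∀ f, G (Ideal.Quotient.mk I f) = F f := by
  obtain ⟨r, hr⟩ := (Ideal.Quotient.mkₐ k I).toLinearMap.exists_rightInverse_of_surjective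
    (LinearMap.range_eq_top.2 (Ideal.Quotient.mkₐ_surjective k I))
  refine ⟨F ∘ₗ r, fun f => ?_⟩
  have h1 : Ideal.Quotient.mk I (r (Ideal.Quotient.mk I f)) = Ideal.Quotient.mk I f :=
    LinearMap.congr_fun hr _
  have h2 := h _ (Ideal.Quotient.eq.1 h1)
  rwa [map_sub, sub_eq_zero] at h2

theorem X_pow_J (n : ℕ) (i : Fin 3) : (Ideal.Quotient.mk (JJ k n) (X i)) ^ n = 0 := by
  rw [← map_pow, Ideal.Quotient.eq_zero_iff_mem]
  exact Ideal.pow_mem_pow (Ideal.subset_span (Set.mem_range_self i)) n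

theorem finite_J {n : ℕ} (hn : 0 < n) : Module.Finite k (PP k ⧸ JJ k n) := by
  have : Algebra.IsIntegral k (PP k ⧸ JJ k n) := ⟨fun a => by
    obtain ⟨f, rfl⟩ := Ideal.Quotient.mk_surjective a
    induction f using MvPolynomial.induction_on with
    | C c => exact isIntegral_algebraMap
    | add f g hf hg => rw [map_add]; exact hf.add hg
    | mul_X f i hf =>
      rw [map_mul]
      exact hf.mul (IsIntegral.of_pow hn (by rw [X_pow_J]; exact isIntegral_zero))⟩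
  exact Algebra.IsIntegral.finite

theorem exists_DJ (n : ℕ) : ∃ D : (PP k ⧸ JJ k n) →ₗ[k] (PP k ⧸ JJ k n), LDer D ∧
    ∀ f, D (Ideal.Quotient.mk _ f) = Ideal.Quotient.mk _ (DP k f) := by
  obtain ⟨D, hD⟩ := exists_lift (JJ k n)
    ((Ideal.Quotient.mkₐ k (JJ k n)).toLinearMap ∘ₗ (DP k : PP k →ₗ[k] PP k))
    (fun f hf => Ideal.Quotient.eq_zero_iff_mem.2 (DP_J hf))
  have hD' : ∀ f, D (Ideal.Quotient.mk _ f) = Ideal.Quotient.mk _ (DP k f) := hD
  refine ⟨D, fun a b => ?_, hD'⟩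
  obtain ⟨f, rfl⟩ := Ideal.Quotient.mk_surjective a
  obtain ⟨g, rfl⟩ := Ideal.Quotient.mk_surjective b
  rw [← map_mul, hD', hD', hD', DP_mul, map_add, map_mul, map_mul]

theorem vec_DJ {n : ℕ} {D : (PP k ⧸ JJ k n) →ₗ[k] (PP k ⧸ JJ k n)}
    (h : ∀ f, D (Ideal.Quotient.mk _ f) = Ideal.Quotient.mk _ (DP k f)) :
    IsVec D (fun i => Ideal.Quotient.mk _ (X i)) :=
  ⟨by simp only [h, DP_X0], by simp only [h, DP_X1, map_neg, map_mul, map_ofNat],
    by simp only [h, DP_X2, map_zero]⟩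

/-- The substitution of the generic matrix plus a first order generic matrix. -/
noncomputable def jP (k : Type) [Field k] (n : ℕ) : PP k →ₐ[k] TZ (PP k ⧸ JJ k n) :=
  aeval (R := k) (S₁ := TZ (PP k ⧸ JJ k n))
    fun a => inl (Ideal.Quotient.mk (JJ k n) (X a)) + tzW (PP k ⧸ JJ k n) a

theorem jP_X (n : ℕ) (a : Fin 3) :
    jP k n (X a) = inl (Ideal.Quotient.mk (JJ k n) (X a)) + tzW (PP k ⧸ JJ k n) a := aeval_X _ _

theorem finite_TZ (A : Type) [CommRing A] [Algebra k A] [Module.Finite k A] :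
    Module.Finite k (TZ A) := inferInstanceAs (Module.Finite k (A × (Fin 3 → A)))

theorem jP_fst (n : ℕ) (f : PP k) : (jP k n f).fst = Ideal.Quotient.mk _ f := by
  induction f using MvPolynomial.induction_on with
  | C c => rw [algHom_C]; rfl
  | add f g hf hg => simp only [map_add, fst_add, hf, hg]
  | mul_X f i hf => simp [hf, jP_X, tzW_fst]

theorem jP_snd (n m : ℕ) : ∀ f ∈ JJ k (m + 1), ∀ a,
    (jP k n f).snd a ∈ (JJ k m).map (Ideal.Quotient.mk (JJ k n)) := by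
  induction m with
  | zero => intro f _ a; simp [JJ, Ideal.map_top]
  | succ m ih =>
    intro f hf a
    rw [JJ, pow_succ] at hf
    refine Submodule.mul_induction_on hf (fun g hg h hh => ?_) (fun g h hg hh => ?_)
    · rw [map_mul, tz_mul, jP_fst, jP_fst]
      refine Ideal.add_mem _ (Ideal.mul_mem_right _ _ (Ideal.mem_map_of_mem _ hg)) ?_
      rw [show JJ k (m + 1) = JJ k m * idealOfVars (Fin 3) k from pow_succ _ _, Ideal.map_mul]
      exact Ideal.mul_mem_mul (ih g hg a) (Ideal.mem_map_of_mem _ hh)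
    · rw [map_add, snd_add, Pi.add_apply]
      exact Ideal.add_mem _ hg hh

theorem jP_J (n : ℕ) (f : PP k) (hf : f ∈ JJ k (n + 1)) : jP k n f = 0 := by
  refine TrivSqZeroExt.ext ?_ (funext fun a => ?_)
  · rw [jP_fst, fst_zero, Ideal.Quotient.eq_zero_iff_mem]
    exact Ideal.pow_le_pow_right (Nat.le_succ n) hf
  · have := jP_snd n n f hf a
    rwa [Ideal.map_quotient_self, Ideal.mem_bot] at this

end

theorem exists_TD_aux {p : ℕ} [Fact p.Prime] (h5 : 5 ≤ p) (n : ℕ) (hn : n + 1 = p) :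
    Nonempty (TD p) := by
  obtain ⟨h, hh⟩ := exists_half h5 (ZMod p)
  obtain ⟨Φ, h1, h2⟩ := exists_Phi (n := n) hh (by rw [hn, ZMod.natCast_self])
  obtain ⟨D1, d1, e1⟩ := exists_DJ (k := ZMod p) (n + 1)
  obtain ⟨D2, d2, e2⟩ := exists_DJ (k := ZMod p) n
  obtain ⟨Φ1, hΦ⟩ := exists_lift (JJ (ZMod p) (n + 1))
    ((Ideal.Quotient.mkₐ (ZMod p) (JJ (ZMod p) (n + 1))).toLinearMap ∘ₗ Φ)
    (fun f hf => by rw [LinearMap.comp_apply, h2 f (memJ.1 hf n (Nat.lt_succ_self n)), map_zero])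
  have hΦ' : ∀ f, Φ1 (Ideal.Quotient.mk _ f) = Ideal.Quotient.mk _ (Φ f) := hΦ
  obtain ⟨s, hs⟩ := exists_lift (JJ (ZMod p) n)
    ((Ideal.Quotient.mkₐ (ZMod p) (JJ (ZMod p) (n + 1))).toLinearMap ∘ₗ
      (LinearMap.id - homogeneousComponent n))
    (fun f hf => Ideal.Quotient.eq_zero_iff_mem.2 (sub_comp_J hf))
  have hs' : ∀ f, s (Ideal.Quotient.mk _ f) =
    Ideal.Quotient.mk _ (f - homogeneousComponent n f) := hs
  have sD : ∀ y, s (D2 y) = D1 (s y) := by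
    intro y
    obtain ⟨f, rfl⟩ := Ideal.Quotient.mk_surjective y
    rw [e2, hs', hs', e1, map_sub (DP (ZMod p)), DP_comp]
  let j := Ideal.Quotient.liftₐ (JJ (ZMod p) (n + 1)) (jP (ZMod p) n) (jP_J n)
  have hj : ∀ f, j (Ideal.Quotient.mk _ f) = jP (ZMod p) n f := fun f => rfl
  have hε : ∀ f ∈ JJ (ZMod p) (n + 1),
      (aeval (fun _ => 0) : PP (ZMod p) →ₐ[ZMod p] ZMod p) f = 0 := by
    intro f hf
    have h3 : idealOfVars (Fin 3) (ZMod p) ≤
        RingHom.ker (aeval (fun _ => 0) : PP (ZMod p) →ₐ[ZMod p] ZMod p) := by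
      rw [Ideal.span_le]
      rintro _ ⟨i, rfl⟩
      exact aeval_X _ _
    exact h3 (Ideal.pow_le_self (Nat.succ_ne_zero n) hf)
  let ε := Ideal.Quotient.liftₐ (JJ (ZMod p) (n + 1)) (aeval (fun _ => 0)) hε
  have he : ∀ f, ε (Ideal.Quotient.mk _ f) = aeval (fun _ => 0) f := fun f => rfl
  have f1 := finite_J (k := ZMod p) (Nat.succ_pos n)
  have f2 := finite_J (k := ZMod p) (show 0 < n by omega)
  have f3 := finite_TZ (k := ZMod p) (PP (ZMod p) ⧸ JJ (ZMod p) n)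
  let ψ : Fin 3 → TZ (PP (ZMod p) ⧸ JJ (ZMod p) n) →ₗ[ZMod p] PP (ZMod p) ⧸ JJ (ZMod p) (n + 1) :=
    fun a => { toFun := fun z => s (z.snd a), map_add' := fun y z => by simp,
               map_smul' := fun c z => by simp }
  have hψ : ∀ a z, ψ a z = s (z.snd a) := fun a z => rfl
  refine ⟨TD.mk (PP (ZMod p) ⧸ JJ (ZMod p) (n + 1)) (TZ (PP (ZMod p) ⧸ JJ (ZMod p) n))
    D1 (tzD D2) d1 (tzD_der d2) j ?_ (tzE _ _) tzE_der tzD_E ε ?_ ?_
    (fun i => Ideal.Quotient.mk _ (X i)) (vec_DJ e1) (fun i => ?_) ψ Φ1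
    (fun y => ?_) (fun y => ?_) (fun y => ?_) (fun a b y => ?_)⟩
  · intro a
    obtain ⟨f, rfl⟩ := Ideal.Quotient.mk_surjective a
    rw [e1, hj, hj]
    exact der_aeval (tzD_der d2) (vec_inl_add d2 (vec_DJ e2)) f
  · intro a
    obtain ⟨f, rfl⟩ := Ideal.Quotient.mk_surjective a
    rw [e1, he, DP_apply]
    simp
  · intro a
    obtain ⟨f, rfl⟩ := Ideal.Quotient.mk_surjective a
    induction f using MvPolynomial.induction_on with
    | C c =>
      rw [he, algHom_C]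
      change (algebraMap (ZMod p) (PP (ZMod p) ⧸ JJ (ZMod p) (n + 1)) c) ^ p =
        algebraMap (ZMod p) (PP (ZMod p) ⧸ JJ (ZMod p) (n + 1)) c
      rw [← map_pow, ZMod.pow_card]
    | add f g hf hg => rw [map_add, add_pow_p (p := p) (Commute.all _ _), hf, hg, map_add, map_add]
    | mul_X f i hf =>
      have h3 := X_pow_J (k := ZMod p) (n + 1) i
      rw [map_mul, mul_pow, map_mul, he (X i), aeval_X, mul_zero, map_zero,
        show ∀ y : PP (ZMod p) ⧸ JJ (ZMod p) (n + 1), y ^ p = y ^ (n + 1) from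
          fun y => congrArg (y ^ ·) hn.symm, show ∀ y : PP (ZMod p) ⧸ JJ (ZMod p) (n + 1),
          y ^ p = y ^ (n + 1) from fun y => congrArg (y ^ ·) hn.symm, h3, mul_zero]
  · rw [he, aeval_X]
  · rw [hψ, hψ, hψ, tzD_0, map_sub, sD, two_mul, map_add]
  · rw [hψ, hψ, tzD_1, sD]
  · rw [hψ, hψ, hψ, tzD_2, map_add, sD]
  · obtain ⟨f, rfl⟩ := Ideal.Quotient.mk_surjective y
    have h3 : (jP (ZMod p) n (X b)).snd a = if a = b then 1 else 0 := by
      simp [jP_X, tzW_snd]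
    rw [hψ, tz_mul, tzE_fst, tzE_snd, zero_mul, zero_add, hj, hj, jP_fst, h3]
    split_ifs
    · rw [one_mul, hs', hΦ', e1, e1, hΦ', ← map_sub, h1, map_sub]
    · rw [zero_mul, map_zero]

theorem exists_TD {p : ℕ} [Fact p.Prime] (h5 : 5 ≤ p) : Nonempty (TD p) :=
  exists_TD_aux h5 (p - 1) (by omega)

end Pool.Agent.P.MP_29765e_al.All
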