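import Mathlib

set_option autoImplicit false

namespace Pool.Agent.P.MP_29765e_al.All

/-- A finite group with a two-cocycle, a normal subgroup on which the cocycle vanishes, a normal
subgroup `Γ` and an element `t` whose centraliser in `Γ` is killed by the cocycle. -/
structure CD (p n : ℕ) where
  U : Type
  B : Type
  [gU : Group U]
  [fU : Finite U]
  [gB : AddCommGroup B]
  [fB : Finite B]
  c : U → U → B
  cocycle : ∀ g h k, c g h + c (g * h) k = c h k + c g (h * k)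
  N : Subgroup U
  nN : N.Normal
  left : ∀ g ∈ N, ∀ h, c g h = 0
  right : ∀ g, ∀ h ∈ N, c g h = 0
  pB : ∀ z : B, p • z = 0
  pU : ∀ g : U, g ^ p ∈ N
  pc : ∀ g : U, ∑ i ∈ Finset.range p, c (g ^ i) g = 0
  Γ : Subgroup U
  nΓ : Γ.Normal
  t : U
  ct : ∀ g, c g t = 0
  key : ∀ e ∈ Γ, c t e = 0 → e ∈ N
  deep : ∃ a : Γ, a ∈ derivedSeries Γ n ∧ (a : U) ∉ N

attribute [instance] CD.gU CD.fU CD.gB CD.fB CD.nN CD.nΓ

/-- The central extension. -/
@[ext] structure KE {p n : ℕ} (C : CD p n) where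
  g : C.U
  z : C.B

namespace KE

variable {p n : ℕ} {C : CD p n}

instance : Mul (KE C) := ⟨fun a b => ⟨a.g * b.g, a.z + b.z + C.c a.g b.g⟩⟩
instance : One (KE C) := ⟨⟨1, 0⟩⟩
instance : Inv (KE C) := ⟨fun a => ⟨a.g⁻¹, -a.z - C.c a.g⁻¹ a.g⟩⟩

theorem mul_g (a b : KE C) : (a * b).g = a.g * b.g := rfl
theorem mul_z (a b : KE C) : (a * b).z = a.z + b.z + C.c a.g b.g := rfl
theorem one_g : (1 : KE C).g = 1 := rfl
theorem one_z : (1 : KE C).z = 0 := rfl
theorem inv_g (a : KE C) : (a⁻¹).g = a.g⁻¹ := rfl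
theorem inv_z (a : KE C) : (a⁻¹).z = -a.z - C.c a.g⁻¹ a.g := rfl

instance : Group (KE C) := Group.ofLeftAxioms
  (fun a b c => by
    refine KE.ext (mul_assoc _ _ _) ?_
    simp only [mul_g, mul_z]
    have h := C.cocycle a.g b.g c.g
    calc a.z + b.z + C.c a.g b.g + c.z + C.c (a.g * b.g) c.g
        = a.z + b.z + c.z + (C.c a.g b.g + C.c (a.g * b.g) c.g) := by abel
      _ = a.z + b.z + c.z + (C.c b.g c.g + C.c a.g (b.g * c.g)) := by rw [h]
      _ = _ := by abel)
  (fun a => by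
    refine KE.ext (one_mul _) ?_
    simp only [mul_z, one_z, one_g, C.left 1 C.N.one_mem, zero_add, add_zero])
  (fun a => by
    refine KE.ext (inv_mul_cancel _) ?_
    simp only [mul_z, one_z, inv_z, inv_g]
    abel)

instance : Finite (KE C) :=
  Finite.of_injective (fun a : KE C => (a.g, a.z)) (fun a b h => by
    simp only [Prod.mk.injEq] at h
    exact KE.ext h.1 h.2)

/-- Projection to the group. -/
def proj (C : CD p n) : KE C →* C.U where
  toFun a := a.g
  map_one' := rfl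
  map_mul' _ _ := rfl

/-- The lift of the normal subgroup. -/
def NN (C : CD p n) : Subgroup (KE C) where
  carrier := {a | a.g ∈ C.N ∧ a.z = 0}
  one_mem' := ⟨C.N.one_mem, rfl⟩
  mul_mem' := by
    rintro a b ⟨h1, h2⟩ ⟨h3, h4⟩
    exact ⟨C.N.mul_mem h1 h3, by rw [mul_z, h2, h4, C.left _ h1, add_zero, add_zero]⟩
  inv_mem' := by
    rintro a ⟨h1, h2⟩
    exact ⟨C.N.inv_mem h1, by rw [inv_z, h2, C.right _ _ h1, neg_zero, sub_zero]⟩

instance : (NN C).Normal := ⟨by
  rintro a ⟨h1, h2⟩ b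
  have h3 : b.g * a.g * b.g⁻¹ ∈ C.N := C.nN.conj_mem _ h1 _
  have h4 : b * a = (⟨b.g * a.g * b.g⁻¹, 0⟩ : KE C) * b := by
    refine KE.ext ?_ ?_
    · simp only [mul_g, inv_mul_cancel_right]
    · simp only [mul_z, h2, C.right _ _ h1, C.left _ h3, add_zero, zero_add]
  rw [h4, mul_inv_cancel_right]
  exact ⟨h3, rfl⟩⟩

theorem pow_z (a : KE C) (m : ℕ) : (a ^ m).g = a.g ^ m ∧
    (a ^ m).z = m • a.z + ∑ i ∈ Finset.range m, C.c (a.g ^ i) a.g := by
  induction m with
  | zero => exact ⟨by rw [pow_zero, pow_zero]; rfl, by simp [one_z]⟩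
  | succ m ih =>
    rw [pow_succ, mul_g, mul_z, ih.1, ih.2, Finset.sum_range_succ, succ_nsmul, pow_succ]
    exact ⟨rfl, by abel⟩

theorem pow_mem (a : KE C) : a ^ p ∈ NN C :=
  ⟨by rw [(pow_z a p).1]; exact C.pU _, by rw [(pow_z a p).2, C.pB, C.pc, add_zero]⟩

end KE

theorem prod_conj {K : Type} [Group K] (g t : K) (m : ℕ) :
    ((List.range m).map fun i => t ^ i * g * (t ^ i)⁻¹).prod = (g * t) ^ m * (t ^ m)⁻¹ := by
  induction m with
  | zero => simp
  | succ m ih =>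
    rw [List.range_succ, List.map_append, List.prod_append, ih]
    simp only [List.map_cons, List.map_nil, List.prod_cons, List.prod_nil, mul_one]
    rw [pow_succ (g * t), pow_succ' t]
    group

theorem CD.main {p n : ℕ} (hp : p.Prime) (C : CD p (n + 1)) :
    ∃ (G : Type) (_ : Group G) (_ : Finite G) (φ : MulAut G),
      (∀ g : G, g ^ p = 1) ∧ orderOf φ = p ∧
      (∀ g : G, ((List.range p).map fun i => (φ ^ i) g).prod = 1) ∧
      (∀ g : G, φ g = g → g ∈ Subgroup.center G) ∧ derivedSeries G n ≠ ⊥ := by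
  have : Fact p.Prime := ⟨hp⟩
  let π := QuotientGroup.mk' (KE.NN C)
  have hπ : Function.Surjective π := QuotientGroup.mk'_surjective _
  let Γ' : Subgroup (KE C) := C.Γ.comap (KE.proj C)
  let G : Subgroup (KE C ⧸ KE.NN C) := Γ'.map π
  have : G.Normal := Subgroup.Normal.map inferInstance π hπ
  have hexp : ∀ x : KE C ⧸ KE.NN C, x ^ p = 1 := by
    intro x
    obtain ⟨a, rfl⟩ := hπ x
    rw [← map_pow]
    exact (QuotientGroup.eq_one_iff _).2 (KE.pow_mem a)
  let τ : KE C ⧸ KE.NN C := π ⟨C.t, 0⟩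
  let φ : MulAut G := MulAut.conjNormal τ
  have hφ : ∀ (i : ℕ) (g : G), (((φ ^ i) g : G) : KE C ⧸ KE.NN C) = τ ^ i * g * (τ ^ i)⁻¹ := by
    intro i g
    rw [← map_pow, MulAut.conjNormal_apply]
  have hp1 : φ ^ p = 1 := by rw [← map_pow, hexp, map_one]
  have hfix : ∀ g : G, φ g = g → g ∈ Subgroup.center G := by
    rintro ⟨x, a, ha, rfl⟩ h
    have h1 : τ * π a * τ⁻¹ = π a := by
      have := congrArg Subtype.val h
      rwa [MulAut.conjNormal_apply] at this
    rw [mul_inv_eq_iff_eq_mul, ← map_mul, ← map_mul] at h1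
    have h2 : (a * ⟨C.t, 0⟩)⁻¹ * (⟨C.t, 0⟩ * a) ∈ KE.NN C := QuotientGroup.eq.1 h1.symm
    have h3 : (⟨C.t, 0⟩ * a : KE C) =
        a * ⟨C.t, 0⟩ * ((a * ⟨C.t, 0⟩)⁻¹ * (⟨C.t, 0⟩ * a)) := by group
    have h4 := congrArg KE.z h3
    rw [KE.mul_z (a * _), h2.2, C.right _ _ h2.1, KE.mul_z, KE.mul_z, C.ct] at h4
    simp only [zero_add, add_zero] at h4
    have h5 : a.g ∈ C.N := C.key _ ha (add_eq_left.1 h4)
    have h6 : π a = π ⟨1, a.z⟩ := by
      have : a = (⟨a.g, 0⟩ : KE C) * ⟨1, a.z⟩ := by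
        refine KE.ext (mul_one _).symm ?_
        simp only [KE.mul_z, C.left _ h5, zero_add, add_zero]
      have hm : (⟨a.g, 0⟩ : KE C) ∈ KE.NN C := ⟨h5, rfl⟩
      have e : π ⟨a.g, 0⟩ = 1 := (QuotientGroup.eq_one_iff _).2 hm
      conv_lhs => rw [this]
      rw [map_mul, e, one_mul]
    rw [Subgroup.mem_center_iff]
    rintro ⟨y, b, hb, rfl⟩
    refine Subtype.ext ?_
    change π b * π a = π a * π b
    rw [h6, ← map_mul, ← map_mul]
    congr 1
    refine KE.ext (by simp only [KE.mul_g, mul_one, one_mul]) ?_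
    simp only [KE.mul_z, C.left 1 C.N.one_mem, C.right _ 1 C.N.one_mem, add_zero]
    exact add_comm _ _
  have hder : derivedSeries G (n + 1) ≠ ⊥ := by
    intro h
    obtain ⟨a, ha, hN⟩ := C.deep
    let q : Γ' →* C.Γ := ((KE.proj C).comp Γ'.subtype).codRestrict C.Γ (fun x => x.2)
    have hq : Function.Surjective q := fun x => ⟨⟨⟨x.1, 0⟩, x.2⟩, rfl⟩
    rw [← map_derivedSeries_eq hq] at ha
    obtain ⟨b, hb, rfl⟩ := ha
    have h1 := map_derivedSeries_le_derivedSeries (π.subgroupMap Γ') (n + 1) ⟨b, hb, rfl⟩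
    rw [h, Subgroup.mem_bot] at h1
    have h2 : π b.1 = 1 := congrArg Subtype.val h1
    exact hN ((QuotientGroup.eq_one_iff _).1 h2).1
  have hne : φ ≠ 1 := by
    intro h1
    apply hder
    have hc : Subgroup.center G = ⊤ := by
      rw [eq_top_iff]
      intro a _
      apply hfix a
      rw [h1, MulAut.one_apply]
    rw [← commutator_eq_bot_iff_center_eq_top, ← derivedSeries_one] at hc
    have h2 := derivedSeries_antitone G (Nat.le_add_left 1 n)
    rw [hc] at h2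
    exact le_bot_iff.1 h2
  refine ⟨G, inferInstance, inferInstance, φ, fun g => Subtype.ext (hexp _),
    orderOf_eq_prime hp1 hne, fun g => ?_, hfix, fun h => hder ?_⟩
  · refine Subtype.ext ?_
    have h1 := map_list_prod G.subtype ((List.range p).map fun i => (φ ^ i) g)
    rw [List.map_map] at h1
    refine h1.trans ?_
    have h2 : (G.subtype ∘ fun i => (φ ^ i) g) = fun i => τ ^ i * g * (τ ^ i)⁻¹ :=
      funext fun i => hφ i g
    rw [h2, prod_conj, hexp, hexp, inv_one, mul_one]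
    rfl
  · have h2 := derivedSeries_antitone G (Nat.le_succ n)
    rw [h] at h2
    exact le_bot_iff.1 h2

end Pool.Agent.P.MP_29765e_al.All
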