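import Pool.Agent.P.MP_29765e_al.All.Key

set_option autoImplicit false

namespace Pool.Agent.P.MP_29765e_al.All

open MvPolynomial

/-- Polynomial functions on traceless matrices. -/
abbrev PP (k : Type) [CommRing k] := MvPolynomial (Fin 3) k

/-- The nilpotent derivation of the polynomial ring. -/
noncomputable def DP (k : Type) [CommRing k] : Derivation k (PP k) (PP k) :=
  (X 2 : PP k) • pderiv 0 - (2 * X 0 : PP k) • pderiv 1

section

variable {k : Type} [CommRing k]

theorem DP_apply (f : PP k) : DP k f = X 2 * pderiv 0 f - 2 * X 0 * pderiv 1 f := by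
  simp [DP]

theorem DP_X0 : DP k (X 0) = X 2 := by simp [DP_apply]
theorem DP_X1 : DP k (X 1) = - (2 * X 0) := by simp [DP_apply]
theorem DP_X2 : DP k (X 2) = 0 := by simp [DP_apply]
theorem DP_C (c : k) : DP k (C c) = 0 := by simp
theorem DP_mul (f g : PP k) : DP k (f * g) = DP k f * g + f * DP k g := by
  rw [Derivation.leibniz, smul_eq_mul, smul_eq_mul]; ring

theorem hom_ind {n : ℕ} {Q : PP k → Prop} (h0 : Q 0) (hadd : ∀ f g, Q f → Q g → Q (f + g))
    (hmon : ∀ (c : k) (i j l : ℕ), i + j + l = n → Q (C c * (X 0 ^ i * X 1 ^ j * X 2 ^ l)))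
    (f : PP k) (hf : f.IsHomogeneous n) : Q f := by
  rw [f.as_sum]
  refine Finset.sum_induction _ Q hadd h0 fun d hd => ?_
  have h1 : d.degree = n := by
    by_contra h
    exact (mem_support_iff.1 hd) (hf.coeff_eq_zero h)
  rw [Finsupp.degree_eq_sum, Fin.sum_univ_three] at h1
  rw [monomial_eq, Finsupp.prod_fintype _ _ (fun i => pow_zero _), Fin.prod_univ_three]
  exact hmon _ _ _ _ h1

theorem two_hom : (2 : PP k).IsHomogeneous 0 := by
  have := isHomogeneous_C (Fin 3) (2 : k)
  rwa [map_ofNat] at this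

theorem DP_hom {n : ℕ} {f : PP k} (hf : f.IsHomogeneous n) : (DP k f).IsHomogeneous n := by
  obtain _ | n := n
  · rw [← totalDegree_zero_iff_isHomogeneous, totalDegree_eq_zero_iff_eq_C] at hf
    rw [hf, DP_C]; apply isHomogeneous_zero
  · rw [DP_apply]
    have h1 := (isHomogeneous_X k (2 : Fin 3)).mul (hf.pderiv (i := 0))
    have h2 := (two_hom.mul (isHomogeneous_X k (0 : Fin 3))).mul (hf.pderiv (i := 1))
    simp only [Nat.add_sub_cancel, zero_add, add_comm 1 n] at h1 h2
    exact h1.sub h2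

theorem DP_comp (n : ℕ) (f : PP k) :
    homogeneousComponent n (DP k f) = DP k (homogeneousComponent n f) := by
  rw [← sum_homogeneousComponent f]
  simp only [map_sum]
  refine Finset.sum_congr rfl fun i _ => ?_
  have h := homogeneousComponent_isHomogeneous i f
  rw [homogeneousComponent_of_mem h, homogeneousComponent_of_mem (DP_hom h)]
  split_ifs <;> simp

/-- Substitution of symmetric polynomials in two variables. -/
noncomputable def io (h : k) : PP k →ₐ[k] MvPolynomial (Fin 2) k :=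
  aeval ![C h * (X 0 + X 1), -(X 0 * X 1), 1]

theorem io_X0 (h : k) : io h (X 0) = C h * (X 0 + X 1) := by simp [io]
theorem io_X1 (h : k) : io h (X 1) = -(X 0 * X 1) := by simp [io]
theorem io_X2 (h : k) : io h (X 2) = 1 := by simp [io]

/-- The translation derivation. -/
noncomputable def DB (k : Type) [CommRing k] :
    Derivation k (MvPolynomial (Fin 2) k) (MvPolynomial (Fin 2) k) := pderiv 0 + pderiv 1

theorem DB_mul (f g : MvPolynomial (Fin 2) k) : DB k (f * g) = DB k f * g + f * DB k g := by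
  rw [Derivation.leibniz, smul_eq_mul, smul_eq_mul]; ring

theorem C_half {h : k} (hh : 2 * h = 1) : (2 : MvPolynomial (Fin 2) k) * C h = 1 := by
  rw [← map_ofNat C 2, ← map_mul, hh, map_one]

theorem DB_io {h : k} (hh : 2 * h = 1) (f : PP k) : DB k (io h f) = io h (DP k f) := by
  have hX : ∀ i, DB k (io h (X i)) = io h (DP k (X i)) := by
    have h2 := C_half hh
    intro i
    fin_cases i
    · change DB k (io h (X 0)) = io h (DP k (X 0))
      rw [DP_X0, io_X0, io_X2]
      simp [DB]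
      linear_combination h2
    · change DB k (io h (X 1)) = io h (DP k (X 1))
      rw [DP_X1, io_X1, map_neg (io h), map_mul, io_X0, map_ofNat]
      simp [DB]
      linear_combination (X 0 + X 1) * h2
    · change DB k (io h (X 2)) = io h (DP k (X 2))
      rw [DP_X2, io_X2]
      simp
  induction f using MvPolynomial.induction_on with
  | C c => rw [DP_C, map_zero, algHom_C]; exact Derivation.map_algebraMap _ _
  | add f g hf hg => simp only [map_add, hf, hg]
  | mul_X f i hf => rw [map_mul, DB_mul, DP_mul, hf, hX, map_add, map_mul, map_mul]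

/-- Images of homogeneous polynomials. -/
def InW (h : k) (n : ℕ) (y : MvPolynomial (Fin 2) k) : Prop :=
  ∃ g : PP k, g.IsHomogeneous n ∧ io h g = y

theorem InW.mul {h : k} {m n : ℕ} {y z : MvPolynomial (Fin 2) k} (hy : InW h m y)
    (hz : InW h n z) : InW h (m + n) (y * z) := by
  obtain ⟨f, hf, rfl⟩ := hy
  obtain ⟨g, hg, rfl⟩ := hz
  exact ⟨f * g, hf.mul hg, map_mul _ _ _⟩

theorem InW.add {h : k} {n : ℕ} {y z : MvPolynomial (Fin 2) k} (hy : InW h n y)
    (hz : InW h n z) : InW h n (y + z) := by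
  obtain ⟨f, hf, rfl⟩ := hy
  obtain ⟨g, hg, rfl⟩ := hz
  exact ⟨f + g, hf.add hg, map_add _ _ _⟩

theorem InW.sub {h : k} {n : ℕ} {y z : MvPolynomial (Fin 2) k} (hy : InW h n y)
    (hz : InW h n z) : InW h n (y - z) := by
  obtain ⟨f, hf, rfl⟩ := hy
  obtain ⟨g, hg, rfl⟩ := hz
  exact ⟨f - g, hf.sub hg, map_sub _ _ _⟩

theorem InW.succ {h : k} {n : ℕ} {y : MvPolynomial (Fin 2) k} (hy : InW h n y) :
    InW h (n + 1) y := by
  have := hy.mul ⟨X 2, isHomogeneous_X _ _, io_X2 h⟩
  rwa [mul_one] at this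

theorem InW.pow {h : k} {y : MvPolynomial (Fin 2) k} (hy : InW h 1 y) (n : ℕ) :
    InW h n (y ^ n) := by
  obtain ⟨f, hf, rfl⟩ := hy
  exact ⟨f ^ n, by simpa using hf.pow n, map_pow _ _ _⟩

theorem InW.const (h c : k) : InW h 0 (C c) := ⟨C c, isHomogeneous_C _ _, algHom_C _ _⟩

theorem newton {h : k} (hh : 2 * h = 1) (n : ℕ) : InW h n (X 0 ^ n + X 1 ^ n) ∧
    InW h n ((X 0 + X 1) ^ (n + 1) - (X 0 ^ (n + 1) + X 1 ^ (n + 1))) := by
  have h1 : InW h 1 (X 0 + X 1) := ⟨2 * X 0, two_hom.mul (isHomogeneous_X _ _), by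
    rw [map_mul, map_ofNat, io_X0, ← mul_assoc, C_half hh, one_mul]⟩
  have h2 : InW h 1 (X 0 * X 1) := ⟨- X 1, (isHomogeneous_X _ _).neg, by
    rw [map_neg, io_X1, neg_neg]⟩
  induction n with
  | zero =>
    refine ⟨?_, ⟨0, isHomogeneous_zero _ _ _, by simp⟩⟩
    have := (InW.const h 1).add (InW.const h 1)
    simpa using this
  | succ n ih =>
    refine ⟨?_, ?_⟩
    · have := (h1.pow (n + 1)).sub ih.2.succ
      rwa [sub_sub_cancel] at this
    · have := (ih.2.mul h1).add (ih.1.mul h2)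
      have e : ((X 0 + X 1) ^ (n + 1) - (X 0 ^ (n + 1) + X 1 ^ (n + 1))) * (X 0 + X 1)
          + (X 0 ^ n + X 1 ^ n) * (X 0 * X 1) = ((X 0 + X 1) ^ (n + 1 + 1)
          - (X 0 ^ (n + 1 + 1) + X 1 ^ (n + 1 + 1)) : MvPolynomial (Fin 2) k) := by ring
      rwa [e] at this

/-- The ideal of `q`-th powers of the variables. -/
noncomputable def aI (k : Type) [CommRing k] (q : ℕ) : Ideal (MvPolynomial (Fin 2) k) :=
  Ideal.span {X 0 ^ q, X 1 ^ q}

theorem mul_io {h : k} (hh : 2 * h = 1) {n : ℕ} (f : PP k) (hf : f.IsHomogeneous n) :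
    ∃ g : PP k, g.IsHomogeneous n ∧ io h g - io h (X 0) * io h f ∈ aI k (n + 1) := by
  refine hom_ind (Q := fun f => ∃ g : PP k, g.IsHomogeneous n ∧
    io h g - io h (X 0) * io h f ∈ aI k (n + 1)) ⟨0, isHomogeneous_zero _ _ _, by simp⟩ ?_ ?_ f hf
  · rintro f g ⟨f', h1, h2⟩ ⟨g', h3, h4⟩
    refine ⟨f' + g', h1.add h3, ?_⟩
    have := Ideal.add_mem _ h2 h4
    rw [map_add, map_add]
    convert this using 1
    ring
  · intro c i j l e
    obtain _ | l := l
    · have h2 : InW h 1 (-(X 0 * X 1)) := ⟨X 1, isHomogeneous_X _ _, io_X1 h⟩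
      obtain ⟨g, h3, h4⟩ := (InW.const h (c * h ^ (i + 1))).mul ((newton hh i).2.mul (h2.pow j))
      refine ⟨g, by rwa [zero_add, ← add_zero (i + j), e] at h3, ?_⟩
      rw [h4, aI, Ideal.mem_span_pair]
      refine ⟨- (C c * C h ^ (i + 1) * (- X 1) ^ j), - (C c * C h ^ (i + 1) * (- X 0) ^ j), ?_⟩
      simp only [map_mul, map_pow, algHom_C, io_X0, io_X1, io_X2, algebraMap_eq, ← e]
      rw [neg_pow (X 1 : MvPolynomial (Fin 2) k), neg_pow (X 0 : MvPolynomial (Fin 2) k),
        neg_pow (X 0 * X 1 : MvPolynomial (Fin 2) k), mul_pow (C h)]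
      ring
    · refine ⟨C c * (X 0 ^ (i + 1) * X 1 ^ j * X 2 ^ l), ?_, ?_⟩
      · have := (((isHomogeneous_X_pow (R := k) (0 : Fin 3) (i + 1)).mul
          (isHomogeneous_X_pow (1 : Fin 3) j)).mul (isHomogeneous_X_pow (2 : Fin 3) l)).C_mul c
        rwa [show i + 1 + j + l = n by omega] at this
      · simp only [map_mul, map_pow, io_X2, one_pow]
        rw [show io h (C c) * (io h (X 0) ^ (i + 1) * io h (X 1) ^ j * 1) -
          io h (X 0) * (io h (C c) * (io h (X 0) ^ i * io h (X 1) ^ j * 1)) = 0 by ring]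
        exact Ideal.zero_mem _

theorem degreeOf_io (h : k) {n : ℕ} (a : Fin 2) (f : PP k) (hf : f.IsHomogeneous n) :
    degreeOf a (io h f) ≤ n := by
  have hX : ∀ b : Fin 2, degreeOf a (X b : MvPolynomial (Fin 2) k) ≤ if a = b then 1 else 0 := by
    intro b
    rcases subsingleton_or_nontrivial k with _ | _
    · rw [Subsingleton.elim (X b : MvPolynomial (Fin 2) k) 0, degreeOf_zero]; exact Nat.zero_le _
    · rw [degreeOf_X]
  have h0 : degreeOf a (io h (X 0)) ≤ 1 := by
    rw [io_X0]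
    refine (degreeOf_C_mul_le _ _ _).trans ((degreeOf_add_le _ _ _).trans (max_le ?_ ?_))
    · exact (hX 0).trans (by split_ifs <;> omega)
    · exact (hX 1).trans (by split_ifs <;> omega)
  have h1 : degreeOf a (io h (X 1)) ≤ 1 := by
    rw [io_X1, degreeOf_neg]
    refine (degreeOf_mul_le _ _ _).trans ((add_le_add (hX 0) (hX 1)).trans ?_)
    fin_cases a <;> simp
  refine hom_ind (Q := fun f => degreeOf a (io h f) ≤ n) (by simp) ?_ ?_ f hf
  · intro f g h1 h2
    rw [map_add]
    exact (degreeOf_add_le _ _ _).trans (max_le h1 h2)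
  · intro c i j l e
    rw [map_mul, algHom_C, algebraMap_eq, map_mul, map_mul, map_pow, map_pow, map_pow, io_X2,
      one_pow, mul_one]
    refine (degreeOf_C_mul_le _ _ _).trans ((degreeOf_mul_le _ _ _).trans ?_)
    have h2 := (degreeOf_pow_le a (io h (X 0)) i).trans (Nat.mul_le_mul_left i h0)
    have h3 := (degreeOf_pow_le a (io h (X 1)) j).trans (Nat.mul_le_mul_left j h1)
    omega

end

section

variable {k : Type} [Field k]

theorem io_inj {h : k} (hh : 2 * h = 1) {n : ℕ} (f : PP k) (hf : f.IsHomogeneous n)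
    (h0 : io h f ∈ aI k (n + 1)) : f = 0 := by
  have h1 : io h f = 0 := by
    have e : ({X 0 ^ (n + 1), X 1 ^ (n + 1)} : Set (MvPolynomial (Fin 2) k)) =
        (fun s => monomial s (1 : k)) '' {Finsupp.single 0 (n + 1), Finsupp.single 1 (n + 1)} := by
      rw [Set.image_pair, X_pow_eq_monomial, X_pow_eq_monomial]
    rw [aI, e, mem_ideal_span_monomial_image] at h0
    by_contra hne
    obtain ⟨d, hd⟩ := support_nonempty.2 hne
    obtain ⟨s, hs, hle⟩ := h0 d hd
    have h2 := fun a => (monomial_le_degreeOf a hd).trans (degreeOf_io h a f hf)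
    rcases hs with rfl | rfl
    · have := (Finsupp.single_le_iff.1 hle).trans (h2 0); omega
    · have := (Finsupp.single_le_iff.1 hle).trans (h2 1); omega
  let K := AlgebraicClosure k
  have h2 : ∀ x : Fin 3 → K, aeval x (X 2 * f) = 0 := by
    intro x
    rw [map_mul, aeval_X]
    by_cases hc : x 2 = 0
    · rw [hc, zero_mul]
    obtain ⟨w, hw⟩ := IsAlgClosed.exists_eq_mul_self ((x 0 / x 2) ^ 2 + x 1 / x 2)
    have hK : 2 * algebraMap k K h = 1 := by
      rw [← map_ofNat (algebraMap k K) 2, ← map_mul, hh, map_one]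
    let ev : PP k →ₐ[k] K := (aeval ![x 0 / x 2 + w, x 0 / x 2 - w]).comp (io h)
    have e0 : ev (X 0) = x 0 / x 2 := by
      simp only [ev, AlgHom.comp_apply, io_X0]
      simp
      linear_combination (x 0 / x 2) * hK
    have e1 : ev (X 1) = x 1 / x 2 := by
      simp only [ev, AlgHom.comp_apply, io_X1]
      simp
      linear_combination - hw
    have e2 : ev (X 2) = 1 := by simp only [ev, AlgHom.comp_apply, io_X2, map_one]
    have h3 : aeval x f = x 2 ^ n * ev f := by
      refine hom_ind (Q := fun f => aeval x f = x 2 ^ n * ev f) (by simp) ?_ ?_ f hf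
      · intro f g h1 h2
        rw [map_add, map_add, h1, h2, mul_add]
      · intro c i j l e
        simp only [map_mul, map_pow, algHom_C, aeval_X, e0, e1, e2, ← e]
        have a0 : x 0 = x 2 * (x 0 / x 2) := by rw [mul_div_cancel₀ _ hc]
        have a1 : x 1 = x 2 * (x 1 / x 2) := by rw [mul_div_cancel₀ _ hc]
        generalize x 0 / x 2 = y0 at *
        generalize x 1 / x 2 = y1 at *
        rw [a0, a1]
        ring
    have h4 : ev f = 0 := by simp only [ev, AlgHom.comp_apply, h1, map_zero]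
    rw [h3, h4, mul_zero, mul_zero]
  have h3 : MvPolynomial.map (algebraMap k K) (X 2 * f) = 0 := by
    refine MvPolynomial.funext fun x => ?_
    rw [eval_map, map_zero, ← aeval_def, h2]
  have h4 : X 2 * f = 0 :=
    map_injective _ (algebraMap k K).injective (h3.trans (map_zero _).symm)
  exact (mul_eq_zero.1 h4).resolve_left (X_ne_zero _)

theorem DB_aI {q : ℕ} (hq : (q : k) = 0) {y : MvPolynomial (Fin 2) k} (hy : y ∈ aI k q) :
    DB k y ∈ aI k q := by
  have h : ∀ i : Fin 2, DB k (X i ^ q) = 0 := by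
    intro i
    rw [Derivation.leibniz_pow, ← Nat.cast_smul_eq_nsmul k, hq, zero_smul]
  rw [aI, Ideal.mem_span_pair] at *
  obtain ⟨a, b, rfl⟩ := hy
  exact ⟨DB k a, DB k b, by rw [map_add, DB_mul, DB_mul, h, h]; ring⟩

/-- In characteristic `n + 1` the forms of degree `n` are a free module for the derivation. -/
theorem exists_Phi {h : k} (hh : 2 * h = 1) {n : ℕ} (hn : ((n + 1 : ℕ) : k) = 0) :
    ∃ Φ : PP k →ₗ[k] PP k, (∀ f, DP k (Φ f) - Φ (DP k f) = homogeneousComponent n f) ∧
      ∀ f, homogeneousComponent n f = 0 → Φ f = 0 := by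
  let M := homogeneousSubmodule (Fin 3) k n
  let q := (Ideal.Quotient.mkₐ k (aI k (n + 1))).comp (io h)
  let ι : M →ₗ[k] _ := q.toLinearMap ∘ₗ M.subtype
  have hι : LinearMap.ker ι = ⊥ := by
    rw [LinearMap.ker_eq_bot']
    intro f hf
    exact Subtype.ext (io_inj hh f.1 f.2 (Ideal.Quotient.eq_zero_iff_mem.1 hf))
  obtain ⟨r, hr⟩ := ι.exists_leftInverse_of_injective hι
  let Φ : PP k →ₗ[k] PP k := M.subtype ∘ₗ r ∘ₗ q.toLinearMap ∘ₗ LinearMap.mulLeft k (X 0 : PP k)
    ∘ₗ homogeneousComponent n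
  have hΦ : ∀ f, Φ f = (r (q (X 0 * homogeneousComponent n f))).1 := fun f => rfl
  have h1 : ∀ f, (Φ f).IsHomogeneous n ∧
      io h (Φ f) - io h (X 0) * io h (homogeneousComponent n f) ∈ aI k (n + 1) := by
    intro f
    obtain ⟨g, hg, h2⟩ := mul_io hh _ (homogeneousComponent_isHomogeneous n f)
    have h3 : q (X 0 * homogeneousComponent n f) = ι ⟨g, hg⟩ := by
      change Ideal.Quotient.mk _ (io h _) = Ideal.Quotient.mk _ (io h g)
      rw [map_mul]
      exact (Ideal.Quotient.eq.2 h2).symm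
    have h4 : Φ f = g := by
      rw [hΦ, h3]
      exact congrArg Subtype.val (LinearMap.congr_fun hr ⟨g, hg⟩)
    rw [h4]
    exact ⟨hg, h2⟩
  refine ⟨Φ, fun f => ?_, fun f hf => by rw [hΦ, hf]; simp⟩
  rw [← sub_eq_zero]
  refine io_inj hh _ (((DP_hom (h1 f).1).sub (h1 _).1).sub
    (homogeneousComponent_isHomogeneous n f)) ?_
  have h2 := Ideal.sub_mem _ (DB_aI hn (h1 f).2) (h1 (DP k f)).2
  rw [map_sub, DB_mul, DB_io hh, DB_io hh, DB_io hh, DP_X0, io_X2, DP_comp] at h2
  rw [map_sub, map_sub]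
  convert h2 using 1
  ring

end

end Pool.Agent.P.MP_29765e_al.All
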