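import Pool.Agent.P.MP_29765e_al.All.Set

set_option autoImplicit false

namespace Pool.Agent.P.MP_29765e_al.All

open Matrix
open scoped commutatorElement

theorem exists_half {p : ℕ} [Fact p.Prime] (h5 : 5 ≤ p) (S : Type) [CommRing S]
    [Algebra (ZMod p) S] : ∃ h : S, 2 * h = 1 := by
  have h2 : (2 : ZMod p) ≠ 0 := by
    intro h
    have : ((2 : ℕ) : ZMod p) = 0 := by exact_mod_cast h
    rw [ZMod.natCast_eq_zero_iff] at this
    have := Nat.le_of_dvd (by norm_num) this
    omega
  refine ⟨algebraMap (ZMod p) S 2⁻¹, ?_⟩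
  rw [← map_ofNat (algebraMap (ZMod p) S) 2, ← map_mul, mul_inv_cancel₀ h2, map_one]

theorem IsDer.half {S : Type} [CommRing S] {D : S →+ S} (hD : IsDer D) {h : S}
    (hh : 2 * h = 1) : D h = 0 := by
  have h1 : D (h + h) = 0 := by rw [← two_mul, hh, hD.one]
  rw [map_add] at h1
  linear_combination h * h1 - D h * hh

/-- Splitting an invariant matrix into its scalar and traceless parts. -/
theorem split_inv {S : Type} [CommRing S] {D : S →+ S} (hD : IsDer D) {h : S} (hh : 2 * h = 1)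
    {m : M2 S} (hm : DM D m = 0) : ∃ (r : S) (v : M2 S), m = r • (1 : M2 S) + v ∧
      r = h * trace m ∧ D r = 0 ∧ DM D v = 0 ∧ trace v = 0 := by
  have h1 : D (h * trace m) = 0 := by rw [hD, hD.half hh, ← trace_DM, hm]; simp
  refine ⟨h * trace m, m - (h * trace m) • 1, by abel, rfl, h1, ?_, ?_⟩
  · rw [DM_sub, DM_smul hD, h1, DM_one hD, hm]; simp
  · rw [trace_sub, trace_smul, trace_one]
    simp only [Fintype.card_fin, Nat.cast_ofNat, smul_eq_mul]
    linear_combination (- trace m) * hh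

namespace Setup

variable {p : ℕ} [Fact p.Prime] {A : Setup p}

theorem pow_mem_N (h5 : 5 ≤ p) (g : A.U) : g ^ p ∈ A.N := by
  obtain ⟨h, hh⟩ := exists_half h5 A.S
  obtain ⟨r, v, e, er, -, v1, v2⟩ := split_inv A.hD hh (mt_D g)
  change Neg A.D (mt (g ^ p) - 1)
  have h1 : A.ε (r - 1) = 0 := by
    have h2 : A.ε (trace (mt g)) = 2 := by
      rw [AddMonoidHom.map_trace, mt_ε]; simp
    have h3 := congrArg A.ε hh
    rw [map_mul, map_ofNat, map_one] at h3
    rw [er, map_sub, map_mul, h2, map_one]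
    linear_combination h3
  have h2 : r ^ p = 1 := by
    have := add_pow_p (p := p) (Commute.all (r - 1) 1)
    rwa [sub_add_cancel, A.frob _ h1, one_pow, zero_add] at this
  have h3 : Commute (r • (1 : M2 A.S)) v := (Commute.one_left v).smul_left r
  rw [mt_pow, e, add_pow_p h3, smul_pow, h2, one_pow, one_smul, add_sub_cancel_left,
    show v ^ p = v ^ (p - 2) * v ^ 2 by rw [← pow_add]; congr 1; omega]
  exact Neg.mul_right A.hD (A.engel v v1 v2) (DM_pow A.hD v1 2)

theorem th_one : th (1 : A.U) = 0 := by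
  rw [th, mt_one, Matrix.map_one _ (map_zero _) (map_one _), A.hE.map_one, mul_zero]

theorem sum_th (h5 : 5 ≤ p) (g : A.U) : Neg A.D' (∑ i ∈ Finset.range p, th (g ^ i)) := by
  let Lm : Module.End (ZMod p) (M2 A.S') := LinearMap.mulLeft _ ((mt g⁻¹).map A.j)
  let δ : Module.End (ZMod p) (M2 A.S') :=
    LinearMap.mulRight _ ((mt g).map A.j) - LinearMap.mulLeft _ ((mt g).map A.j)
  let T : Module.End (ZMod p) (M2 A.S') := Lm * LinearMap.mulRight _ ((mt g).map A.j)
  have hT : T - 1 = Lm * δ := by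
    refine LinearMap.ext fun x => ?_
    simp only [T, Lm, δ, LinearMap.sub_apply, Module.End.mul_apply, LinearMap.mulLeft_apply,
      LinearMap.mulRight_apply, Module.End.one_apply, mul_sub]
    rw [← mul_assoc _ _ x, j_inv_mul, one_mul]
  have hc : Commute Lm δ := by
    refine LinearMap.ext fun x => ?_
    simp only [Lm, δ, LinearMap.sub_apply, Module.End.mul_apply, LinearMap.mulLeft_apply,
      LinearMap.mulRight_apply, mul_sub]
    rw [← mul_assoc _ _ x, ← mul_assoc _ _ x, j_inv_mul, j_mul_inv, mul_assoc]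
  have h1 : ∀ i, th (g ^ i) = (∑ l ∈ Finset.range i, T ^ l) (th g) := by
    intro i
    induction i with
    | zero => simp [th_one]
    | succ i ih =>
      rw [pow_succ, th_mul, Finset.sum_range_succ', ih, LinearMap.add_apply, pow_zero,
        Module.End.one_apply]
      congr 1
      simp only [pow_succ', ← Finset.mul_sum, Module.End.mul_apply, T, Lm, LinearMap.mulLeft_apply,
        LinearMap.mulRight_apply, mul_assoc]
  rw [Finset.sum_congr rfl (fun i _ => h1 i), ← LinearMap.sum_apply, sum_sum_pow, hT, hc.mul_pow,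
    Module.End.mul_apply]
  obtain ⟨h, hh⟩ := exists_half h5 A.S
  obtain ⟨r, v, e, -, -, v1, v2⟩ := split_inv A.hD hh (mt_D g)
  obtain ⟨m, hm⟩ : ∃ m, p - 2 = 2 * m + 1 := by
    obtain ⟨m, hm⟩ := (Fact.out : p.Prime).odd_of_ne_two (by omega)
    exact ⟨m - 1, by omega⟩
  have v3 : trace (v.map A.j) = 0 := by rw [← AddMonoidHom.map_trace, v2, map_zero]
  have hδ : ⇑δ = fun y => y * v.map A.j - v.map A.j * y := by
    funext y
    have : (mt g).map A.j = A.j r • (1 : M2 A.S') + v.map A.j := by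
      rw [e]
      ext i k
      by_cases e : i = k <;> simp [e]
    simp only [δ, LinearMap.sub_apply, LinearMap.mulLeft_apply, LinearMap.mulRight_apply, this,
      mul_add, add_mul, mul_smul_comm, smul_mul_assoc, mul_one, one_mul]
    abel
  have h2 : Neg A.D' ((-(v.map A.j).det) ^ m • v.map A.j) := by
    have := A.neg_j (A.engel v v1 v2)
    rwa [Matrix.map_pow, hm, pow_odd_traceless v3] at this
  have h3 : Neg A.D' ((δ ^ (p - 2)) (th g)) := by
    rw [Module.End.pow_apply, hδ, hm, ad_pow v3, mul_pow, mul_smul, smul_sub, ← mul_smul_comm,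
      ← smul_mul_assoc]
    refine Neg.smul A.hD' ?_ ((Neg.mul_left A.hD' (th_D g) h2).sub
      (Neg.mul_right A.hD' h2 (th_D g)))
    have : (4 : A.S') ^ m = ((4 ^ m : ℕ) : A.S') := by push_cast; rfl
    rw [this, ← nsmul_one, map_nsmul, A.hD'.one, smul_zero]
  rw [LinearMap.pow_mulLeft, LinearMap.mulLeft_apply]
  exact Neg.mul_left A.hD' (DM_pow A.hD' (A.inv_j (mt_D _)) _) h3

theorem sum_coc (h5 : 5 ≤ p) (g : A.U) : ∑ i ∈ Finset.range p, coc (g ^ i) g = 0 := by
  funext i
  rw [Finset.sum_apply]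
  simp only [coc]
  rw [← QuotientAddGroup.mk_sum, ← trace_sum, ← Finset.sum_mul]
  exact mk_eq_zero (Neg.mul_right A.hD' (sum_th h5 g) (A.inv_j (rh_D (List.get_mem _ _) g)))

theorem exists_unit {m : M2 A.S} (h1 : DM A.D m = 0) (h2 : trace m = 0) (h3 : m.map A.ε = 0) :
    ∃ g : A.U, mt g = 1 + m := by
  have h4 : A.ε (-m.det) = 0 := by
    rw [map_neg, RingHom.map_det, RingHom.mapMatrix_apply, h3, det_zero, neg_zero]
  have h5 : IsNilpotent m :=
    ⟨2 * p, by rw [pow_mul, pow_two, sq_traceless h2, smul_pow, A.frob _ h4, zero_smul]⟩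
  obtain ⟨u, hu⟩ := h5.isUnit_one_add
  refine ⟨⟨u, ?_, ?_⟩, hu⟩
  · rw [hu, DM_add, DM_one A.hD, h1, add_zero]
  · rw [hu, Matrix.map_add _ (map_add _), h3, add_zero]
    exact Matrix.map_one _ (map_zero _) (map_one _)

theorem neg_sub_prod (l : List (A.S →+* A.S)) (hl : ∀ π ∈ l, π ∈ A.L) (m : M2 A.S)
    (h : ∀ π ∈ l, Neg A.D (m - m.map π)) : Neg A.D (m - m.map l.prod) := by
  induction l with
  | nil =>
    have : m.map (1 : A.S →+* A.S) = m := rfl
    rw [List.prod_nil, this, sub_self]; exact Neg.zero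
  | cons π l ih =>
    have h1 := ih (fun π' h' => hl π' (List.mem_cons_of_mem _ h'))
      (fun π' h' => h π' (List.mem_cons_of_mem _ h'))
    have h2 := Neg.map π.toAddMonoidHom (A.LD π (hl π List.mem_cons_self)) h1
    have h3 : m - m.map (π :: l).prod = (m - m.map π) + (m - m.map l.prod).map π := by
      rw [Matrix.map_sub _ (map_sub π), List.prod_cons, Matrix.map_map]
      change m - m.map (π ∘ l.prod) = _
      abel
    rw [h3]
    exact (h π List.mem_cons_self).add h2

theorem trace_rh {π : A.S →+* A.S} (hπ : π ∈ A.L) {e : A.U} (h : (mt e).det = 1) :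
    trace (rh π e) = 0 := by
  have h1 : (1 - rh π e) * mt e = (mt e).map π := by
    rw [rh, sub_mul, one_mul, mul_assoc, mt_inv_mul, mul_one]; abel
  have h2 := congrArg det h1
  rw [det_mul, h, mul_one, ← RingHom.mapMatrix_apply, ← RingHom.map_det, h, map_one] at h2
  have h3 : (rh π e).det = 0 := by
    rw [rh, det_mul, Matrix.det_fin_two]
    simp [A.Lsq π hπ]
  rw [Matrix.det_fin_two] at h2 h3
  rw [Matrix.trace_fin_two]
  simp only [Matrix.sub_apply, one_apply_eq, ne_eq, zero_ne_one, not_false_eq_true, one_apply_ne,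
    one_ne_zero] at h2
  linear_combination h3 - h2

theorem key (h5 : 5 ≤ p) {t : A.U} (ht : mt t = 1 + A.X) {e : A.U} (he : e ∈ A.Γ)
    (h : coc t e = 0) : e ∈ A.N := by
  obtain ⟨hf, hh⟩ := exists_half h5 A.S
  have h1 : ∀ π ∈ A.L, Neg A.D (mt e - (mt e).map π) := by
    intro π hπ
    obtain ⟨i, rfl⟩ := List.get_of_mem hπ
    obtain ⟨y, hy⟩ := (QuotientAddGroup.eq_zero_iff _).1 (congrFun h i)
    have h2 : DM A.D (rh (A.L.get i) e * mt t⁻¹) = 0 := by
      rw [DM_mul A.hD, rh_D hπ, mt_D]; simp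
    obtain ⟨r, v, e1, -, -, v1, v2⟩ := split_inv A.hD hh h2
    have h3 : trace ((A.X.map A.j).map A.E) = 0 := by
      rw [← AddMonoidHom.map_trace, ← AddMonoidHom.map_trace, A.Xtr, map_zero, map_zero]
    have h4 : Neg A.D v := by
      refine A.nd v v1 v2 ⟨y, ?_⟩
      rw [hy, th, ht, Matrix.map_add _ (map_add _), Matrix.map_add _ (map_add _),
        Matrix.map_one _ (map_zero _) (map_one _), A.hE.map_one, zero_add, mul_assoc,
        trace_mul_comm ((mt t⁻¹).map A.j), mul_assoc, ← Matrix.map_mul, e1]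
      have : (r • (1 : M2 A.S) + v).map A.j = A.j r • (1 : M2 A.S') + v.map A.j := by
        ext i k
        by_cases e : i = k <;> simp [e]
      rw [this, mul_add, trace_add, mul_smul_comm, mul_one, trace_smul, h3, smul_zero, zero_add]
    have h6 : rh (A.L.get i) e = r • mt t + v * mt t := by
      rw [← mul_one (rh _ e), ← mt_inv_mul t, ← mul_assoc, e1, add_mul, smul_mul_assoc, one_mul]
    have h7 := Neg.mul_right A.hD h4 (mt_D t)
    obtain ⟨z, hz⟩ := h7.trace
    have h8 := trace_rh hπ he.1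
    rw [h6, trace_add, hz, trace_smul, ht, trace_add, A.Xtr, trace_one] at h8
    simp only [Fintype.card_fin, Nat.cast_ofNat, smul_eq_mul, add_zero] at h8
    have h9 : r = A.D (-(hf * z)) := by
      rw [map_neg, A.hD, A.hD.half hh]
      linear_combination hf * h8 - r * hh
    have h10 : Neg A.D (r • mt t) :=
      ⟨(-(hf * z)) • mt t, by rw [DM_smul A.hD, mt_D, smul_zero, add_zero, ← h9]⟩
    have h11 : mt e - (mt e).map (A.L.get i) = rh (A.L.get i) e * mt e := by
      rw [rh, mul_assoc, mt_inv_mul, mul_one]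
    rw [h11, h6]
    exact Neg.mul_right A.hD (h10.add h7) (mt_D e)
  have h2 := neg_sub_prod A.L (fun _ h => h) _ h1
  rwa [he.2] at h2

theorem lev_mem : ∀ (n : ℕ) (m : M2 A.S), Lev A.D (RingHom.ker A.L.prod) n m →
    ∃ a : A.Γ, a ∈ derivedSeries A.Γ n ∧ mt (a : A.U) = 1 + m
  | 0, m, ⟨h1, h2, h3, h4⟩ => by
    obtain ⟨g, hg⟩ := exists_unit h1 h2 (by
      ext i k
      have := congrArg A.ε (h3.entry i k i k)
      rw [map_mul, map_zero, mul_self_eq_zero] at this
      exact this)
    refine ⟨⟨g, ?_, ?_⟩, Subgroup.mem_top _, hg⟩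
    · rw [Matrix.trace_fin_two] at h2
      rw [hg, Matrix.det_fin_two]
      simp only [Matrix.add_apply, one_apply_eq, ne_eq, zero_ne_one, not_false_eq_true,
        one_apply_ne, one_ne_zero]
      linear_combination h2 + h3.entry 0 0 1 1 - h3.entry 0 1 1 0
    · rw [hg, Matrix.map_add _ (map_add _), Matrix.map_one _ (map_zero _) (map_one _), add_eq_left]
      ext i k
      exact h4 i k
  | n + 1, _, ⟨a, b, ha, hb, rfl⟩ => by
    obtain ⟨x, hx, ex⟩ := lev_mem n a ha
    obtain ⟨y, hy, ey⟩ := lev_mem n b hb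
    obtain ⟨-, -, sa, -⟩ := Lev.basic A.hD n a ha
    obtain ⟨-, -, sb, -⟩ := Lev.basic A.hD n b hb
    refine ⟨⁅x, y⁆, Subgroup.commutator_mem_commutator hx hy, ?_⟩
    have e1 : ((⁅x, y⁆ : A.Γ) : A.U) = x * y * ((y : A.U) * x)⁻¹ := by
      rw [_root_.mul_inv_rev, ← mul_assoc]; rfl
    have e2 : (1 + a) * (1 + b) = (1 + (a * b - b * a)) * ((1 + b) * (1 + a))
        - (a * b * a + a * (b * b) + a * (b * b) * a - b * (a * a) - b * a * b - b * (a * b * a)) := by
      noncomm_ring
    rw [sa.sandwich, sb.sandwich, sa.sq, sb.sq] at e2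
    simp only [mul_zero, zero_mul, add_zero, sub_zero] at e2
    rw [e1, mt_mul, mt_mul, ex, ey, e2, ← ex, ← ey, ← mt_mul, mul_assoc, mt_mul_inv, mul_one]

theorem main (h5 : 5 ≤ p) (A : Setup p) (n : ℕ) (u : M2 A.S)
    (hu : Lev A.D (RingHom.ker A.L.prod) (n + 1) u) (hn : ¬ Neg A.D u) :
    ∃ (G : Type) (_ : Group G) (_ : Finite G) (φ : MulAut G),
      (∀ g : G, g ^ p = 1) ∧ orderOf φ = p ∧
      (∀ g : G, ((List.range p).map fun i => (φ ^ i) g).prod = 1) ∧
      (∀ g : G, φ g = g → g ∈ Subgroup.center G) ∧ derivedSeries G n ≠ ⊥ := by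
  obtain ⟨t, ht⟩ := exists_unit A.XD A.Xtr A.Xε
  refine CD.main Fact.out
    { U := A.U, B := Fin A.L.length → A.S' ⧸ A.D'.range, c := coc, cocycle := coc_cocycle,
      N := A.N, nN := A.N_normal, left := fun _ hg h => coc_left hg h,
      right := fun g _ hh => coc_right g hh, pB := ?_, pU := pow_mem_N h5, pc := sum_coc h5,
      Γ := A.Γ, nΓ := A.Γ_normal, t := t, ct := ?_, key := fun e he h => key h5 ht he h,
      deep := ?_ }
  · intro z
    funext i
    obtain ⟨y, hy⟩ := QuotientAddGroup.mk_surjective (z i)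
    have : (p : A.S') = 0 := by
      rw [← map_natCast (algebraMap (ZMod p) A.S'), ZMod.natCast_self, map_zero]
    rw [Pi.smul_apply, ← hy, ← QuotientAddGroup.mk_nsmul, nsmul_eq_mul, this, zero_mul]
    rfl
  · intro g
    funext i
    have : rh (A.L.get i) t = 0 := by
      rw [rh, ht, Matrix.map_add _ (map_add _), A.XL _ (List.get_mem _ _),
        Matrix.map_one _ (map_zero _) (map_one _), sub_self, zero_mul]
    simp only [coc, this]
    simp
  · obtain ⟨a, h1, h2⟩ := lev_mem _ u hu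
    refine ⟨a, h1, fun h => hn ?_⟩
    have h3 : Neg A.D (mt (a : A.U) - 1) := h
    rwa [h2, add_sub_cancel_left] at h3

end Setup

end Pool.Agent.P.MP_29765e_al.All
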