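import Pool.Agent.P.MP_29765e_al.All.Tow

set_option autoImplicit false

namespace Pool.Agent.P.MP_29765e_al.All

open TensorProduct Matrix

variable {p : ℕ} [Fact p.Prime] {n : ℕ}

theorem prod_toRingHom {k A : Type} [CommRing k] [CommRing A] [Algebra k A]
    (l : List (A →ₐ[k] A)) (a : A) : (l.map AlgHom.toRingHom).prod a = l.prod a := by
  induction l with
  | nil => rfl
  | cons π l ih =>
    rw [List.map_cons, List.prod_cons, List.prod_cons, AlgHom.mul_apply, ← ih]; rfl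

/-- The thickening after extension of scalars. -/
noncomputable def jS (W : Tow p n) (C : TD p) :
    W.R ⊗[ZMod p] C.T →ₐ[ZMod p] W.R ⊗[ZMod p] C.T' :=
  Algebra.TensorProduct.map (AlgHom.id _ _) C.j

theorem jS_tmul (W : Tow p n) (C : TD p) (a : W.R) (b : C.T) :
    jS W C (a ⊗ₜ b) = a ⊗ₜ C.j b := rfl

theorem vec_x (W : Tow p n) (C : TD p) :
    IsVec (tD W.D C.D) (fun i => (1 : W.R) ⊗ₜ[ZMod p] C.x i) := by
  refine ⟨?_, ?_, ?_⟩ <;>
    simp only [tD_tmul, W.hD.one, zero_tmul, zero_add, C.xD.1, C.xD.2.1, C.xD.2.2, tmul_zero,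
      two_mul, tmul_neg, tmul_add]

theorem nd_tensor (h5 : 5 ≤ p) (W : Tow p n) (C : TD p) (μ : M2 (W.R ⊗[ZMod p] C.T))
    (h1 : DM (tD W.D C.D).toAddMonoidHom μ = 0) (h2 : trace μ = 0) (y : W.R ⊗[ZMod p] C.T')
    (hy : trace (((mat fun i => (1 : W.R) ⊗ₜ[ZMod p] C.x i).map (jS W C).toRingHom).map
      (tD (0 : W.R →ₗ[ZMod p] W.R) C.E).toAddMonoidHom * μ.map (jS W C).toRingHom) =
      tD W.D C.D' y) : Neg (tD W.D C.D).toAddMonoidHom μ := by
  obtain ⟨v, hv, rfl⟩ := exists_vec h1 h2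
  obtain ⟨h, hh⟩ := exists_half h5 (ZMod p)
  let Ψ := fun a => (C.ψ a).lTensor W.R
  let Φ := C.Φ.lTensor W.R
  let w : Fin 3 → W.R ⊗[ZMod p] C.T' := fun b => 1 ⊗ₜ C.E (C.j (C.x b))
  have hw : ∀ a b f, Ψ a (w b * jS W C f) =
      if a = b then f - (tD W.D C.D (Φ f) - Φ (tD W.D C.D f)) else 0 := by
    intro a b f
    induction f using TensorProduct.induction_on with
    | zero => simp
    | add f g h1 h2 =>
      rw [map_add, mul_add, map_add, h1, h2]
      split_ifs
      · simp only [map_add]; ring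
      · rw [add_zero]
    | tmul r t =>
      simp only [Ψ, Φ, w, jS_tmul, Algebra.TensorProduct.tmul_mul_tmul, one_mul,
        LinearMap.lTensor_tmul, C.ψw, tD_tmul, map_add]
      split_ifs
      · simp only [tmul_sub]; abel
      · rw [tmul_zero]
  have p0 : Ψ 0 (tD W.D C.D' y) = tD W.D C.D (Ψ 0 y) - (Ψ 1 y + Ψ 1 y) := by
    clear hy
    induction y using TensorProduct.induction_on with
    | zero => simp
    | add f g h1 h2 => simp only [map_add, h1, h2]; ring
    | tmul r t =>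
      simp only [Ψ, LinearMap.lTensor_tmul, C.ψ0, tD_tmul, map_add, tmul_sub, tmul_add]; abel
  have p1 : Ψ 1 (tD W.D C.D' y) = tD W.D C.D (Ψ 1 y) := by
    clear hy p0
    induction y using TensorProduct.induction_on with
    | zero => simp
    | add f g h1 h2 => simp only [map_add, h1, h2]
    | tmul r t => simp only [Ψ, LinearMap.lTensor_tmul, C.ψ1, tD_tmul, map_add]
  have p2 : Ψ 2 (tD W.D C.D' y) = tD W.D C.D (Ψ 2 y) + Ψ 0 y := by
    clear hy p0 p1
    induction y using TensorProduct.induction_on with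
    | zero => simp
    | add f g h1 h2 => simp only [map_add, h1, h2]; ring
    | tmul r t =>
      simp only [Ψ, LinearMap.lTensor_tmul, C.ψ2, tD_tmul, map_add, tmul_add]; abel
  have ht : tD W.D C.D' y = w 0 * jS W C (v 0) + w 0 * jS W C (v 0) + w 1 * jS W C (v 2)
      + w 2 * jS W C (v 1) := by
    rw [← hy, mat_map', mat_map', mat_map]
    simp [mat, Matrix.trace_fin_two, w, jS_tmul, tD_tmul]
    ring
  rw [ht] at p0 p1 p2
  simp only [map_add, hw] at p0 p1 p2
  simp only [Fin.isValue, ↓reduceIte, Fin.reduceEq, add_zero, zero_add, hv.1, hv.2.1, hv.2.2,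
    map_zero, two_mul, map_neg, map_add] at p0 p1 p2
  have hs : ∀ z : W.R ⊗[ZMod p] C.T, h • (z + z) = z := fun z => by
    rw [← two_smul (ZMod p) z, smul_smul, mul_comm, hh, one_smul]
  have q0 := congrArg (h • ·) p0
  simp only [hs, smul_sub h (tD W.D C.D (Ψ 0 y))] at q0
  have q1 := hs (Ψ 0 y)
  rw [smul_add] at q1
  refine ⟨!![h • Ψ 0 y + Φ (v 0), Ψ 2 y + Φ (v 1); Ψ 1 y + Φ (v 2), -(h • Ψ 0 y + Φ (v 0))], ?_⟩
  rw [DM_eq]
  ext1 i l
  fin_cases i <;> fin_cases l <;> simp [mat]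
  · linear_combination q0
  · linear_combination p2 - q1
  · linear_combination p1
  · linear_combination - q0

theorem not_neg (h5 : 5 ≤ p) (W : Tow p n) (C : TD p) :
    ¬ Neg (tD W.D C.D).toAddMonoidHom (mat fun i => W.u i ⊗ₜ[ZMod p] (1 : C.T)) := by
  rintro ⟨y, hy⟩
  let τ := fun a => tF (W.σ a) C.ε.toLinearMap
  have t0 : ∀ r, τ 0 (tD W.D C.D r) = - (τ 1 r + τ 1 r) := by
    intro r
    induction r using TensorProduct.induction_on with
    | zero => simp
    | add f g h1 h2 => simp only [map_add, h1, h2]; ring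
    | tmul r t => simp [τ, tD_tmul, tF_tmul, W.σ0, C.εD]; ring
  have t1 : ∀ r, τ 1 (tD W.D C.D r) = 0 := by
    intro r
    induction r using TensorProduct.induction_on with
    | zero => simp
    | add f g h1 h2 => simp only [map_add, h1, h2, add_zero]
    | tmul r t => simp [τ, tD_tmul, tF_tmul, W.σ1, C.εD]
  have t2 : ∀ r, τ 2 (tD W.D C.D r) = τ 0 r := by
    intro r
    induction r using TensorProduct.induction_on with
    | zero => simp
    | add f g h1 h2 => simp only [map_add, h1, h2]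
    | tmul r t => simp [τ, tD_tmul, tF_tmul, W.σ2, C.εD]
  have tu : ∀ a, τ a (W.u a ⊗ₜ 1) = W.c := fun a => by simp [τ, tF_tmul, W.σu]
  rw [DM_eq] at hy
  have a0 : W.u 0 ⊗ₜ 1 = tD W.D C.D (y 0 0) - y 1 0 := congrFun (congrFun hy 0) 0
  have a1 : W.u 1 ⊗ₜ 1 = tD W.D C.D (y 0 1) + (y 0 0 - y 1 1) := congrFun (congrFun hy 0) 1
  have a2 : W.u 2 ⊗ₜ 1 = tD W.D C.D (y 1 0) := congrFun (congrFun hy 1) 0
  have a3 : - (W.u 0 ⊗ₜ 1) = tD W.D C.D (y 1 1) + y 1 0 := congrFun (congrFun hy 1) 1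
  have b0 := congrArg (τ 0) a0
  have b1 := congrArg (τ 1) a1
  have b2 := congrArg (τ 2) a2
  have b3 := congrArg (τ 0) a3
  simp only [map_add, map_sub, map_neg, t0, t1, t2, tu] at b0 b1 b2 b3
  have h6 : ((6 : ℕ) : ZMod p) * W.c = 0 := by
    push_cast
    linear_combination b0 - b3 + 2 * b1 + 2 * b2
  rw [mul_eq_zero, ZMod.natCast_eq_zero_iff] at h6
  refine h6.elim (fun h => ?_) W.hc
  rcases (Nat.Prime.dvd_mul (m := 2) (n := 3) Fact.out).1 h with h | h <;>
    exact absurd (Nat.le_of_dvd (by norm_num) h) (by omega)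

theorem all_primes (h5 : 5 ≤ p) (n : ℕ) :
    ∃ (G : Type) (_ : Group G) (_ : Finite G) (φ : MulAut G),
      (∀ g : G, g ^ p = 1) ∧ orderOf φ = p ∧
      (∀ g : G, ((List.range p).map fun i => (φ ^ i) g).prod = 1) ∧
      (∀ g : G, φ g = g → g ∈ Subgroup.center G) ∧ derivedSeries G n ≠ ⊥ := by
  obtain ⟨W⟩ := exists_tow h5 (n + 1)
  obtain ⟨C⟩ := exists_TD h5
  have f1 : Finite (W.R ⊗[ZMod p] C.T) := Module.finite_of_finite (ZMod p)
  have f2 : Finite (W.R ⊗[ZMod p] C.T') := Module.finite_of_finite (ZMod p)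
  have d0 : LDer (0 : W.R →ₗ[ZMod p] W.R) := fun a b => by simp
  let iL : W.R →ₐ[ZMod p] W.R ⊗[ZMod p] C.T := Algebra.TensorProduct.includeLeft
  refine Setup.main h5 (Setup.mk (W.R ⊗[ZMod p] C.T) (W.R ⊗[ZMod p] C.T')
    (tD W.D C.D).toAddMonoidHom (tD W.D C.D').toAddMonoidHom (tD_der W.hD C.hD)
    (tD_der W.hD C.hD') (jS W C).toRingHom ?_ (tD 0 C.E).toAddMonoidHom (tD_der d0 C.hE) ?_
    (Algebra.TensorProduct.productMap W.ε C.ε).toRingHom ?_
    ((W.L.map (lA C.T)).map AlgHom.toRingHom) ?_ ?_ (mat fun i => 1 ⊗ₜ C.x i)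
    (DM_mat (vec_x W C)) (trace_mat _) ?_ ?_ (engel_gen h5 (tD_der W.hD C.hD))
    (fun μ h1 h2 h => h.elim fun y hy => nd_tensor h5 W C μ h1 h2 y hy)) n
    (mat fun i => W.u i ⊗ₜ 1) ?_ (not_neg h5 W C)
  · intro x
    change tD W.D C.D' (jS W C x) = jS W C (tD W.D C.D x)
    induction x using TensorProduct.induction_on with
    | zero => simp
    | add f g h1 h2 => simp only [map_add, h1, h2]
    | tmul r t => simp only [jS_tmul, tD_tmul, map_add, C.jD]
  · intro x
    change tD W.D C.D' (tD 0 C.E x) = tD 0 C.E (tD W.D C.D' x)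
    induction x using TensorProduct.induction_on with
    | zero => simp
    | add f g h1 h2 => simp only [map_add, h1, h2]
    | tmul r t => simp [tD_tmul, C.ED]
  · intro a ha
    have ha' : Algebra.TensorProduct.productMap W.ε C.ε a = 0 := ha
    rw [frob_tensor W.frob C.frob, ha', map_zero]
  · intro π hπ
    obtain ⟨π1, h1, rfl⟩ := List.mem_map.1 hπ
    obtain ⟨π2, h2, rfl⟩ := List.mem_map.1 h1
    exact lA_D _ (W.LD _ h2)
  · intro π hπ
    obtain ⟨π1, h1, rfl⟩ := List.mem_map.1 hπ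
    obtain ⟨π2, h2, rfl⟩ := List.mem_map.1 h1
    exact lA_sq (W.Lsq _ h2)
  · intro π hπ
    obtain ⟨π1, h1, rfl⟩ := List.mem_map.1 hπ
    obtain ⟨π2, h2, rfl⟩ := List.mem_map.1 h1
    rw [mat_map']
    congr 1
    funext i
    change lA C.T π2 (1 ⊗ₜ C.x i) = _
    rw [lA_tmul, map_one]
  · rw [mat_map']
    have : (fun i => (Algebra.TensorProduct.productMap W.ε C.ε).toRingHom (1 ⊗ₜ C.x i)) =
        fun _ => 0 := by
      funext i
      change Algebra.TensorProduct.productMap W.ε C.ε (1 ⊗ₜ C.x i) = 0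
      rw [Algebra.TensorProduct.productMap_apply_tmul, C.εx, mul_zero]
    rw [this]
    ext i l
    fin_cases i <;> fin_cases l <;> simp [mat]
  · have := Lev.map (D' := (tD W.D C.D).toAddMonoidHom)
      (K' := RingHom.ker ((W.L.map (lA C.T)).map AlgHom.toRingHom).prod) iL.toRingHom
      (fun a => by
        change tD W.D C.D (a ⊗ₜ 1) = W.D a ⊗ₜ 1
        rw [tD_tmul, C.hD.one, tmul_zero, add_zero])
      (fun a ha => by
        rw [RingHom.mem_ker, prod_toRingHom]
        change (W.L.map (lA C.T)).prod (a ⊗ₜ 1) = 0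
        rw [lA_prod, W.Lprod, RingHom.mem_ker.1 ha, map_zero, zero_tmul]) _ _ W.lev
    rwa [mat_map'] at this

end Pool.Agent.P.MP_29765e_al.All
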