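import Pool.Agent.P.MP_29765e_al.All.Ext

set_option autoImplicit false

namespace Pool.Agent.P.MP_29765e_al.All

open Matrix

/-- Two by two matrices. -/
abbrev M2 (S : Type) := Matrix (Fin 2) (Fin 2) S

/-- The Leibniz rule. -/
def IsDer {S : Type} [CommRing S] (D : S →+ S) : Prop := ∀ a b, D (a * b) = D a * b + a * D b

/-- The nilpotent Jordan block. -/
def eM (S : Type) [CommRing S] : M2 S := !![0, 1; 0, 0]

/-- The derivation of the matrix ring. -/
def DM {S : Type} [CommRing S] (D : S →+ S) (m : M2 S) : M2 S :=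
  m.map D + (m * eM S - eM S * m)

/-- Negligible matrices. -/
def Neg {S : Type} [CommRing S] (D : S →+ S) (m : M2 S) : Prop := ∃ y, m = DM D y

section

variable {S S' : Type} [CommRing S] [CommRing S'] {D : S →+ S} {D' : S' →+ S'}

theorem IsDer.one (h : IsDer D) : D 1 = 0 := by
  have := h 1 1
  simpa using this

theorem IsDer.map_mul (h : IsDer D) (a b : M2 S) :
    (a * b).map D = a.map D * b + a * b.map D := by
  ext i k
  simp only [Matrix.map_apply, Matrix.mul_apply, Matrix.add_apply, Fin.sum_univ_two, map_add, h _ _]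
  ring

theorem IsDer.map_one (h : IsDer D) : (1 : M2 S).map D = 0 := by
  ext i k
  by_cases e : i = k <;> simp [e, h.one]

theorem DM_add (a b : M2 S) : DM D (a + b) = DM D a + DM D b := by
  rw [DM, DM, DM, Matrix.map_add _ (map_add D), mul_add, add_mul]; abel

theorem DM_sub (a b : M2 S) : DM D (a - b) = DM D a - DM D b := by
  rw [DM, DM, DM, Matrix.map_sub _ (map_sub D), mul_sub, sub_mul]; abel

theorem DM_zero : DM D (0 : M2 S) = 0 := by
  have := DM_sub (D := D) 0 0
  simpa using this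

theorem DM_mul (h : IsDer D) (a b : M2 S) : DM D (a * b) = DM D a * b + a * DM D b := by
  rw [DM, DM, DM, h.map_mul]; noncomm_ring

theorem DM_one (h : IsDer D) : DM D (1 : M2 S) = 0 := by
  rw [DM, h.map_one]; simp

theorem DM_smul (h : IsDer D) (r : S) (a : M2 S) : DM D (r • a) = D r • a + r • DM D a := by
  have : (r • a).map D = D r • a + r • a.map D := by
    ext i k
    simp [h _ _]
  rw [DM, DM, this, smul_mul_assoc, mul_smul_comm, smul_add, smul_sub, add_assoc]

theorem trace_DM (a : M2 S) : trace (DM D a) = D (trace a) := by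
  rw [DM, trace_add, trace_sub, trace_mul_comm, sub_self, add_zero]
  simp [Matrix.trace_fin_two]

theorem DM_eq (m : M2 S) : DM D m =
    !![D (m 0 0) - m 1 0, D (m 0 1) + (m 0 0 - m 1 1); D (m 1 0), D (m 1 1) + m 1 0] := by
  ext i k
  fin_cases i <;> fin_cases k <;>
    simp [DM, eM, Matrix.mul_apply, Fin.sum_univ_two, Matrix.vecMul, dotProduct, sub_eq_add_neg]

theorem DM_map (F : S →+ S') (h : ∀ a, D' (F a) = F (D a)) (m : M2 S) :
    DM D' (m.map F) = (DM D m).map F := by
  rw [DM_eq, DM_eq]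
  ext i k
  fin_cases i <;> fin_cases k <;> simp [h]

theorem DM_pow (h : IsDer D) {a : M2 S} (ha : DM D a = 0) (n : ℕ) : DM D (a ^ n) = 0 := by
  induction n with
  | zero => rw [pow_zero, DM_one h]
  | succ n ih => rw [pow_succ, DM_mul h, ih, ha, zero_mul, mul_zero, add_zero]

theorem DM_inv (h : IsDer D) {g : (M2 S)ˣ} (hg : DM D (g : M2 S) = 0) :
    DM D (↑g⁻¹ : M2 S) = 0 := by
  have h1 := DM_mul h (↑g⁻¹ : M2 S) g
  rw [Units.inv_mul, DM_one h, hg, mul_zero, add_zero] at h1
  rw [← Units.mul_inv_cancel_right (DM D (↑g⁻¹ : M2 S)) g, ← h1, zero_mul]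

theorem Neg.zero : Neg D (0 : M2 S) := ⟨0, DM_zero.symm⟩

theorem Neg.add {a b : M2 S} (ha : Neg D a) (hb : Neg D b) : Neg D (a + b) := by
  obtain ⟨x, rfl⟩ := ha
  obtain ⟨y, rfl⟩ := hb
  exact ⟨x + y, (DM_add x y).symm⟩

theorem Neg.sub {a b : M2 S} (ha : Neg D a) (hb : Neg D b) : Neg D (a - b) := by
  obtain ⟨x, rfl⟩ := ha
  obtain ⟨y, rfl⟩ := hb
  exact ⟨x - y, (DM_sub x y).symm⟩

theorem Neg.mul_left (h : IsDer D) {a b : M2 S} (ha : DM D a = 0) (hb : Neg D b) :
    Neg D (a * b) := by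
  obtain ⟨y, rfl⟩ := hb
  exact ⟨a * y, by rw [DM_mul h, ha, zero_mul, zero_add]⟩

theorem Neg.mul_right (h : IsDer D) {a b : M2 S} (ha : Neg D a) (hb : DM D b = 0) :
    Neg D (a * b) := by
  obtain ⟨y, rfl⟩ := ha
  exact ⟨y * b, by rw [DM_mul h, hb, mul_zero, add_zero]⟩

theorem Neg.smul (h : IsDer D) {r : S} {a : M2 S} (hr : D r = 0) (ha : Neg D a) :
    Neg D (r • a) := by
  obtain ⟨y, rfl⟩ := ha
  exact ⟨r • y, by rw [DM_smul h, hr, zero_smul, zero_add]⟩

theorem Neg.map (F : S →+ S') (h : ∀ a, D' (F a) = F (D a)) {m : M2 S} (hm : Neg D m) :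
    Neg D' (m.map F) := by
  obtain ⟨y, rfl⟩ := hm
  exact ⟨y.map F, (DM_map F h y).symm⟩

theorem Neg.trace {m : M2 S} (hm : Neg D m) : ∃ y, trace m = D y := by
  obtain ⟨y, rfl⟩ := hm
  exact ⟨_, trace_DM y⟩

theorem sq_traceless {v : M2 S} (h : trace v = 0) : v * v = (-v.det) • (1 : M2 S) := by
  rw [Matrix.trace_fin_two] at h
  have h1 : v 1 1 = - v 0 0 := by linear_combination h
  ext i k
  fin_cases i <;> fin_cases k <;>
    simp [Matrix.mul_apply, Fin.sum_univ_two, Matrix.det_fin_two, h1] <;> ring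

theorem pow_odd_traceless {v : M2 S} (h : trace v = 0) (m : ℕ) :
    v ^ (2 * m + 1) = (-v.det) ^ m • v := by
  rw [pow_succ, pow_mul, pow_two, sq_traceless h, smul_pow, one_pow, smul_mul_assoc, one_mul]

/-- Iterated commutators with a traceless matrix. -/
theorem ad_pow {v : M2 S} (h : trace v = 0) (m : ℕ) (x : M2 S) :
    ((fun y => y * v - v * y)^[2 * m + 1]) x = (4 * -v.det) ^ m • (x * v - v * x) := by
  induction m with
  | zero => simp
  | succ m ih =>
    rw [show 2 * (m + 1) + 1 = (2 * m + 1) + 1 + 1 by ring, Function.iterate_succ_apply',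
      Function.iterate_succ_apply', ih]
    have h2 := sq_traceless h
    generalize -v.det = q at *
    have e1 : ∀ y : M2 S, y * v * v = q • y := fun y => by
      rw [mul_assoc, h2, mul_smul_comm, mul_one]
    have e2 : ∀ y : M2 S, v * (v * y) = q • y := fun y => by
      rw [← mul_assoc, h2, smul_mul_assoc, one_mul]
    have e3 : ∀ y : M2 S, v * (y * v) * v = q • (v * y) := fun y => by
      rw [← mul_assoc, e1]
    have e4 : ∀ y : M2 S, v * (v * y * v) = q • (y * v) := fun y => by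
      rw [mul_assoc v y v, e2]
    simp only [smul_mul_assoc, mul_smul_comm, sub_mul, mul_sub, smul_sub, e1, e2, e3, e4]
    module

end

theorem add_pow_p {p : ℕ} [Fact p.Prime] {A : Type} [Ring A] [Algebra (ZMod p) A] {x y : A}
    (h : Commute x y) : (x + y) ^ p = x ^ p + y ^ p := by
  obtain ⟨r, hr⟩ := Commute.exists_add_pow_prime_eq (Fact.out : p.Prime) h
  have : (p : A) = 0 := by
    rw [← map_natCast (algebraMap (ZMod p) A), ZMod.natCast_self, map_zero]
  rw [hr, this]; simp

open Polynomial in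
theorem sum_sum_pow {p : ℕ} [Fact p.Prime] {A : Type} [Ring A] [Algebra (ZMod p) A] (T : A) :
    ∑ i ∈ Finset.range p, ∑ l ∈ Finset.range i, T ^ l = (T - 1) ^ (p - 2) := by
  have hp : 2 ≤ p := (Fact.out : p.Prime).two_le
  have h1 : ∑ i ∈ Finset.range p, ∑ l ∈ Finset.range i, (X : (ZMod p)[X]) ^ l =
      (X - 1) ^ (p - 2) := by
    have h0 : (X - 1 : (ZMod p)[X]) ≠ 0 := X_sub_C_ne_zero 1
    apply mul_right_cancel₀ h0
    apply mul_right_cancel₀ h0
    rw [Finset.sum_mul, Finset.sum_congr rfl (fun i _ => geom_sum_mul X i), Finset.sum_sub_distrib,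
      sub_mul, geom_sum_mul, ← pow_succ, ← pow_succ, show p - 2 + 1 + 1 = p by omega,
      sub_pow_char]
    simp
  have h2 := congrArg (aeval T) h1
  simpa [map_sum] using h2

end Pool.Agent.P.MP_29765e_al.All
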