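import Pool.Agent.P.MP_29765e_al.All.Mat

set_option autoImplicit false

namespace Pool.Agent.P.MP_29765e_al.All

open Matrix
open scoped commutatorElement

/-- The entries lie in an ideal of square zero. -/
def SqZ {S : Type} [CommRing S] (m : M2 S) : Prop :=
  ∃ I : Ideal S, I * I = ⊥ ∧ ∀ i k, m i k ∈ I

/-- Balanced commutators of invariant traceless matrices with entries in `K`. -/
def Lev {S : Type} [CommRing S] (D : S →+ S) (K : Ideal S) : ℕ → M2 S → Prop
  | 0, m => DM D m = 0 ∧ trace m = 0 ∧ SqZ m ∧ ∀ i k, m i k ∈ K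
  | n + 1, m => ∃ a b, Lev D K n a ∧ Lev D K n b ∧ m = a * b - b * a

section

variable {S S' : Type} [CommRing S] [CommRing S'] {D : S →+ S} {D' : S' →+ S'}

theorem comm_mem (I : Ideal S) {a : M2 S} (b : M2 S) (h : ∀ i k, a i k ∈ I) (i k : Fin 2) :
    (a * b - b * a) i k ∈ I := by
  simp only [Matrix.sub_apply, Matrix.mul_apply, Fin.sum_univ_two]
  exact I.sub_mem (I.add_mem (I.mul_mem_right _ (h _ _)) (I.mul_mem_right _ (h _ _)))
    (I.add_mem (I.mul_mem_left _ (h _ _)) (I.mul_mem_left _ (h _ _)))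

theorem SqZ.entry {m : M2 S} (h : SqZ m) (i k i' k' : Fin 2) : m i k * m i' k' = 0 := by
  obtain ⟨I, h1, h2⟩ := h
  have := Ideal.mul_mem_mul (h2 i k) (h2 i' k')
  rwa [h1, Ideal.mem_bot] at this

theorem SqZ.sandwich {m : M2 S} (h : SqZ m) (x : M2 S) : m * x * m = 0 := by
  ext i k
  simp only [Matrix.mul_apply, Fin.sum_univ_two, Matrix.zero_apply]
  linear_combination x 0 0 * h.entry i 0 0 k + x 1 0 * h.entry i 1 0 k
    + x 0 1 * h.entry i 0 1 k + x 1 1 * h.entry i 1 1 k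

theorem SqZ.sq {m : M2 S} (h : SqZ m) : m * m = 0 := by
  simpa using h.sandwich 1

theorem Lev.basic (h : IsDer D) {K : Ideal S} : ∀ (n : ℕ) (m : M2 S), Lev D K n m → Lev D K 0 m
  | 0, _, hm => hm
  | n + 1, _, ⟨a, b, ha, hb, rfl⟩ => by
    obtain ⟨a1, -, ⟨I, a3, a4⟩, a5⟩ := Lev.basic h n a ha
    obtain ⟨b1, -, -, -⟩ := Lev.basic h n b hb
    refine ⟨?_, ?_, ⟨I, a3, comm_mem I b a4⟩, comm_mem K b a5⟩
    · rw [DM_sub, DM_mul h, DM_mul h, a1, b1]; simp
    · rw [trace_sub, trace_mul_comm, sub_self]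

theorem Lev.map {K : Ideal S} {K' : Ideal S'} (f : S →+* S') (hf : ∀ a, D' (f a) = f (D a))
    (hK : ∀ a ∈ K, f a ∈ K') : ∀ (n : ℕ) (m : M2 S), Lev D K n m → Lev D' K' n (m.map f)
  | 0, m, ⟨h1, h2, ⟨I, h3, h4⟩, h5⟩ => by
    refine ⟨?_, ?_, ⟨I.map f, ?_, fun i k => Ideal.mem_map_of_mem f (h4 i k)⟩,
      fun i k => hK _ (h5 i k)⟩
    · have := DM_map (D := D) (D' := D') f.toAddMonoidHom hf m
      rw [h1] at this
      simpa using this
    · rw [← AddMonoidHom.map_trace, h2, map_zero]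
    · rw [← Ideal.map_mul, h3, Ideal.map_bot]
  | n + 1, _, ⟨a, b, ha, hb, rfl⟩ =>
    ⟨a.map f, b.map f, Lev.map f hf hK n a ha, Lev.map f hf hK n b hb, by
      rw [Matrix.map_sub _ (map_sub f), Matrix.map_mul, Matrix.map_mul]⟩

end

/-- The ring-theoretic data of the construction. -/
structure Setup (p : ℕ) [Fact p.Prime] where
  S : Type
  S' : Type
  [cS : CommRing S]
  [cS' : CommRing S']
  [aS : Algebra (ZMod p) S]
  [aS' : Algebra (ZMod p) S']
  [fS : Finite S]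
  [fS' : Finite S']
  D : S →+ S
  D' : S' →+ S'
  hD : IsDer D
  hD' : IsDer D'
  j : S →+* S'
  jD : ∀ a, D' (j a) = j (D a)
  E : S' →+ S'
  hE : IsDer E
  ED : ∀ a, D' (E a) = E (D' a)
  ε : S →+* ZMod p
  frob : ∀ a, ε a = 0 → a ^ p = 0
  L : List (S →+* S)
  LD : ∀ π ∈ L, ∀ a, D (π a) = π (D a)
  Lsq : ∀ π ∈ L, ∀ a b, (a - π a) * (b - π b) = 0
  X : M2 S
  XD : DM D X = 0
  Xtr : trace X = 0
  XL : ∀ π ∈ L, X.map π = X
  Xε : X.map ε = 0
  engel : ∀ v, DM D v = 0 → trace v = 0 → Neg D (v ^ (p - 2))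
  nd : ∀ μ, DM D μ = 0 → trace μ = 0 →
    (∃ y, trace ((X.map j).map E * μ.map j) = D' y) → Neg D μ

attribute [instance] Setup.cS Setup.cS' Setup.aS Setup.aS' Setup.fS Setup.fS'

namespace Setup

variable {p : ℕ} [Fact p.Prime] (A : Setup p)

theorem DM_j (m : M2 A.S) : DM A.D' (m.map A.j) = (DM A.D m).map A.j :=
  DM_map A.j.toAddMonoidHom A.jD m

theorem inv_j {m : M2 A.S} (h : DM A.D m = 0) : DM A.D' (m.map A.j) = 0 := by
  rw [DM_j, h]; simp

theorem neg_j {m : M2 A.S} (h : Neg A.D m) : Neg A.D' (m.map A.j) :=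
  h.map A.j.toAddMonoidHom A.jD

/-- Invariant units congruent to the identity. -/
def U : Subgroup (M2 A.S)ˣ where
  carrier := {g | DM A.D (g : M2 A.S) = 0 ∧ (g : M2 A.S).map A.ε = 1}
  one_mem' := ⟨DM_one A.hD, Matrix.map_one _ (map_zero _) (map_one _)⟩
  mul_mem' := by
    rintro a b ⟨h1, h2⟩ ⟨h3, h4⟩
    refine ⟨?_, ?_⟩
    · rw [Units.val_mul, DM_mul A.hD, h1, h3]; simp
    · rw [Units.val_mul, Matrix.map_mul, h2, h4, one_mul]
  inv_mem' := by
    rintro a ⟨h1, h2⟩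
    refine ⟨DM_inv A.hD h1, ?_⟩
    have : ((↑a⁻¹ : M2 A.S) * a).map A.ε = 1 := by
      rw [Units.inv_mul]; exact Matrix.map_one _ (map_zero _) (map_one _)
    rwa [Matrix.map_mul, h2, mul_one] at this

variable {A}

/-- The matrix of an element. -/
def mt (g : A.U) : M2 A.S := ((g : (M2 A.S)ˣ) : M2 A.S)

theorem mt_mul (g h : A.U) : mt (g * h) = mt g * mt h := rfl
theorem mt_one : mt (1 : A.U) = 1 := rfl
theorem mt_inv_mul (g : A.U) : mt g⁻¹ * mt g = 1 := by rw [← mt_mul, inv_mul_cancel, mt_one]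
theorem mt_mul_inv (g : A.U) : mt g * mt g⁻¹ = 1 := by rw [← mt_mul, mul_inv_cancel, mt_one]
theorem mt_D (g : A.U) : DM A.D (mt g) = 0 := g.2.1
theorem mt_ε (g : A.U) : (mt g).map A.ε = 1 := g.2.2
theorem mt_pow (g : A.U) (n : ℕ) : mt (g ^ n) = mt g ^ n := by
  induction n with
  | zero => rw [pow_zero, pow_zero, mt_one]
  | succ n ih => rw [pow_succ, pow_succ, mt_mul, ih]

variable (A)

/-- Elements congruent to the identity modulo negligible matrices. -/
def N : Subgroup A.U where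
  carrier := {g | Neg A.D (mt g - 1)}
  one_mem' := by
    change Neg A.D (mt 1 - 1)
    rw [mt_one, sub_self]; exact Neg.zero
  mul_mem' := by
    intro a b ha hb
    change Neg A.D (mt (a * b) - 1)
    have : mt (a * b) - 1 = (mt a - 1) * mt b + (mt b - 1) := by rw [mt_mul]; noncomm_ring
    rw [this]
    exact (Neg.mul_right A.hD ha (mt_D b)).add hb
  inv_mem' := by
    intro a ha
    change Neg A.D (mt a⁻¹ - 1)
    have : mt a⁻¹ - 1 = 0 - mt a⁻¹ * (mt a - 1) := by rw [mul_sub, mt_inv_mul]; noncomm_ring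
    rw [this]
    exact Neg.zero.sub (Neg.mul_left A.hD (mt_D _) ha)

theorem N_normal : A.N.Normal := ⟨fun a ha b => by
  change Neg A.D (mt (b * a * b⁻¹) - 1)
  have : mt (b * a * b⁻¹) - 1 = mt b * (mt a - 1) * mt b⁻¹ := by
    rw [mt_mul, mt_mul, mul_sub, sub_mul, mul_one, mt_mul_inv]
  rw [this]
  exact Neg.mul_right A.hD (Neg.mul_left A.hD (mt_D _) ha) (mt_D _)⟩

/-- Determinant one and trivial after killing the auxiliary variables. -/
def Γ : Subgroup A.U where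
  carrier := {g | (mt g).det = 1 ∧ (mt g).map A.L.prod = 1}
  one_mem' := ⟨by rw [mt_one, det_one], Matrix.map_one _ (map_zero _) (map_one _)⟩
  mul_mem' := by
    rintro a b ⟨h1, h2⟩ ⟨h3, h4⟩
    exact ⟨by rw [mt_mul, det_mul, h1, h3, one_mul], by rw [mt_mul, Matrix.map_mul, h2, h4, one_mul]⟩
  inv_mem' := by
    rintro a ⟨h1, h2⟩
    have h3 := congrArg det (mt_inv_mul a)
    have h4 := congrArg (fun m => m.map A.L.prod) (mt_inv_mul a)
    simp only [Matrix.map_mul, h2, mul_one] at h4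
    rw [det_mul, h1, mul_one, det_one] at h3
    exact ⟨h3, h4.trans (Matrix.map_one _ (map_zero _) (map_one _))⟩

theorem Γ_normal : A.Γ.Normal := ⟨by
  rintro a ⟨h1, h2⟩ b
  refine ⟨?_, ?_⟩
  · rw [mt_mul, mt_mul, det_mul, det_mul, h1, mul_one, ← det_mul, mt_mul_inv, det_one]
  · rw [mt_mul, mt_mul, Matrix.map_mul, Matrix.map_mul, h2, mul_one, ← Matrix.map_mul, mt_mul_inv]
    exact Matrix.map_one _ (map_zero _) (map_one _)⟩

variable {A}

/-- Left logarithmic derivative. -/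
def th (g : A.U) : M2 A.S' := (mt g⁻¹).map A.j * ((mt g).map A.j).map A.E

/-- Right logarithmic derivative. -/
def rh (π : A.S →+* A.S) (g : A.U) : M2 A.S := (mt g - (mt g).map π) * mt g⁻¹

theorem j_inv_mul (g : A.U) : (mt g⁻¹).map A.j * (mt g).map A.j = 1 := by
  rw [← Matrix.map_mul, mt_inv_mul]; exact Matrix.map_one _ (map_zero _) (map_one _)

theorem j_mul_inv (g : A.U) : (mt g).map A.j * (mt g⁻¹).map A.j = 1 := by
  rw [← Matrix.map_mul, mt_mul_inv]; exact Matrix.map_one _ (map_zero _) (map_one _)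

theorem th_mul (g h : A.U) :
    th (g * h) = (mt h⁻¹).map A.j * th g * (mt h).map A.j + th h := by
  rw [th, th, th, _root_.mul_inv_rev, mt_mul, mt_mul, Matrix.map_mul, Matrix.map_mul, A.hE.map_mul,
    mul_add]
  congr 1
  · simp only [mul_assoc]
  · rw [mul_assoc, ← mul_assoc ((mt g⁻¹).map A.j), j_inv_mul, one_mul]

theorem sub_mul_sub_eq {π : A.S →+* A.S} (hπ : π ∈ A.L) (a b : M2 A.S) :
    (a - a.map π) * (b - b.map π) = 0 := by
  ext i k
  simp [Matrix.mul_apply, A.Lsq π hπ]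

theorem rh_mul {π : A.S →+* A.S} (hπ : π ∈ A.L) (g h : A.U) :
    rh π (g * h) = rh π g + mt g * rh π h * mt g⁻¹ := by
  have h1 : mt g * mt h - (mt g).map π * (mt h).map π =
      (mt g - (mt g).map π) * mt h + mt g * (mt h - (mt h).map π)
        - (mt g - (mt g).map π) * (mt h - (mt h).map π) := by noncomm_ring
  rw [rh, rh, rh, _root_.mul_inv_rev, mt_mul, mt_mul, Matrix.map_mul, h1, sub_mul_sub_eq hπ,
    sub_zero, add_mul]
  congr 1
  · rw [mul_assoc, ← mul_assoc (mt h), mt_mul_inv, one_mul]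
  · simp only [mul_assoc]

theorem th_D (g : A.U) : DM A.D' (th g) = 0 := by
  rw [th, DM_mul A.hD', A.inv_j (mt_D _), DM_map A.E A.ED, A.inv_j (mt_D _)]
  simp

theorem DM_π {π : A.S →+* A.S} (hπ : π ∈ A.L) (m : M2 A.S) :
    DM A.D (m.map π) = (DM A.D m).map π := DM_map π.toAddMonoidHom (A.LD π hπ) m

theorem rh_D {π : A.S →+* A.S} (hπ : π ∈ A.L) (g : A.U) : DM A.D (rh π g) = 0 := by
  rw [rh, DM_mul A.hD, DM_sub, DM_π hπ, mt_D, mt_D]
  simp

theorem th_neg {g : A.U} (h : g ∈ A.N) : Neg A.D' (th g) := by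
  have h1 : ((mt g).map A.j).map A.E = ((mt g - 1).map A.j).map A.E := by
    rw [Matrix.map_sub _ (map_sub A.j), Matrix.map_sub _ (map_sub A.E),
      Matrix.map_one _ (map_zero _) (map_one _), A.hE.map_one, sub_zero]
  rw [th, h1]
  exact Neg.mul_left A.hD' (A.inv_j (mt_D _)) ((A.neg_j h).map A.E A.ED)

theorem rh_neg {π : A.S →+* A.S} (hπ : π ∈ A.L) {g : A.U} (h : g ∈ A.N) : Neg A.D (rh π g) := by
  have h1 : mt g - (mt g).map π = (mt g - 1) - (mt g - 1).map π := by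
    rw [Matrix.map_sub _ (map_sub π), Matrix.map_one _ (map_zero _) (map_one _)]; abel
  rw [rh, h1]
  exact Neg.mul_right A.hD (Neg.sub h (Neg.map π.toAddMonoidHom (A.LD π hπ) h)) (mt_D _)

/-- The cocycle. -/
def coc (g h : A.U) : Fin A.L.length → A.S' ⧸ A.D'.range :=
  fun i => QuotientAddGroup.mk (trace (th g * (rh (A.L.get i) h).map A.j))

theorem mk_eq_zero {m : M2 A.S'} (h : Neg A.D' m) :
    (QuotientAddGroup.mk (trace m) : A.S' ⧸ A.D'.range) = 0 := by
  obtain ⟨y, hy⟩ := h.trace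
  exact (QuotientAddGroup.eq_zero_iff _).2 ⟨y, hy.symm⟩

theorem coc_cocycle (g h k : A.U) : coc g h + coc (g * h) k = coc h k + coc g (h * k) := by
  funext i
  simp only [coc, Pi.add_apply, ← QuotientAddGroup.mk_add]
  congr 1
  rw [th_mul, rh_mul (List.get_mem _ _), Matrix.map_add _ (map_add A.j), Matrix.map_mul,
    Matrix.map_mul, add_mul, mul_add, trace_add, trace_add, mul_assoc, mul_assoc,
    trace_mul_comm ((mt h⁻¹).map A.j)]
  simp only [mul_assoc]
  ring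

theorem coc_left {g : A.U} (hg : g ∈ A.N) (h : A.U) : coc g h = 0 :=
  funext fun _ => mk_eq_zero
    (Neg.mul_right A.hD' (th_neg hg) (A.inv_j (rh_D (List.get_mem _ _) h)))

theorem coc_right (g : A.U) {h : A.U} (hh : h ∈ A.N) : coc g h = 0 :=
  funext fun _ => mk_eq_zero
    (Neg.mul_left A.hD' (th_D g) (A.neg_j (rh_neg (List.get_mem _ _) hh)))

end Setup

end Pool.Agent.P.MP_29765e_al.All
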