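import Pool.Agent.P.MP_29765e_al.All.Core

set_option autoImplicit false

namespace Pool.Agent.P.MP_29765e_al.All

open TrivSqZeroExt TensorProduct

section

variable {k A B : Type} [CommRing k] [CommRing A] [Algebra k A] [CommRing B] [Algebra k B]

/-- The derivation of a tensor product. -/
noncomputable def tD (d : A →ₗ[k] A) (e : B →ₗ[k] B) : A ⊗[k] B →ₗ[k] A ⊗[k] B :=
  d.rTensor B + e.lTensor A

theorem tD_tmul (d : A →ₗ[k] A) (e : B →ₗ[k] B) (a : A) (b : B) :
    tD d e (a ⊗ₜ b) = d a ⊗ₜ b + a ⊗ₜ e b := by simp [tD]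

theorem tD_der {d : A →ₗ[k] A} {e : B →ₗ[k] B} (hd : LDer d) (he : LDer e) : LDer (tD d e) := by
  intro x y
  induction x using TensorProduct.induction_on with
  | zero => simp
  | add x x' h1 h2 => rw [add_mul, map_add, h1, h2, map_add]; ring
  | tmul a b =>
    induction y using TensorProduct.induction_on with
    | zero => simp
    | add y y' h1 h2 => rw [mul_add, map_add, h1, h2, map_add]; ring
    | tmul a' b' =>
      simp only [Algebra.TensorProduct.tmul_mul_tmul, tD_tmul, hd _ _, he _ _, add_tmul, tmul_add,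
        add_mul, mul_add]
      abel

/-- Endomorphisms acting on the left factor. -/
noncomputable def lA (B : Type) [CommRing B] [Algebra k B] (π : A →ₐ[k] A) :
    A ⊗[k] B →ₐ[k] A ⊗[k] B := Algebra.TensorProduct.map π (AlgHom.id k B)

/-- Endomorphisms acting on the right factor. -/
noncomputable def rA (A : Type) [CommRing A] [Algebra k A] (π : B →ₐ[k] B) :
    A ⊗[k] B →ₐ[k] A ⊗[k] B := Algebra.TensorProduct.map (AlgHom.id k A) π

theorem lA_tmul (π : A →ₐ[k] A) (a : A) (b : B) : lA B π (a ⊗ₜ b) = π a ⊗ₜ b := rfl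
theorem rA_tmul (π : B →ₐ[k] B) (a : A) (b : B) : rA A π (a ⊗ₜ b) = a ⊗ₜ π b := rfl

theorem lA_prod (l : List (A →ₐ[k] A)) (a : A) (b : B) :
    (l.map (lA B)).prod (a ⊗ₜ b) = l.prod a ⊗ₜ b := by
  induction l with
  | nil => rfl
  | cons π l ih =>
    rw [List.map_cons, List.prod_cons, List.prod_cons, AlgHom.mul_apply, ih, lA_tmul]; rfl

theorem rA_prod (l : List (B →ₐ[k] B)) (a : A) (b : B) :
    (l.map (rA A)).prod (a ⊗ₜ b) = a ⊗ₜ l.prod b := by
  induction l with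
  | nil => rfl
  | cons π l ih =>
    rw [List.map_cons, List.prod_cons, List.prod_cons, AlgHom.mul_apply, ih, rA_tmul]; rfl

theorem lA_D {d : A →ₗ[k] A} (e : B →ₗ[k] B) {π : A →ₐ[k] A} (h : ∀ a, d (π a) = π (d a))
    (x : A ⊗[k] B) : tD d e (lA B π x) = lA B π (tD d e x) := by
  induction x using TensorProduct.induction_on with
  | zero => simp
  | add x x' h1 h2 => simp only [map_add, h1, h2]
  | tmul a b => simp only [lA_tmul, tD_tmul, map_add, h]

theorem rA_D (d : A →ₗ[k] A) {e : B →ₗ[k] B} {π : B →ₐ[k] B} (h : ∀ a, e (π a) = π (e a))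
    (x : A ⊗[k] B) : tD d e (rA A π x) = rA A π (tD d e x) := by
  induction x using TensorProduct.induction_on with
  | zero => simp
  | add x x' h1 h2 => simp only [map_add, h1, h2]
  | tmul a b => simp only [rA_tmul, tD_tmul, map_add, h]

theorem sq_of_tmul (π : A ⊗[k] B →ₐ[k] A ⊗[k] B)
    (h : ∀ a b a' b', (a ⊗ₜ b - π (a ⊗ₜ b)) * (a' ⊗ₜ b' - π (a' ⊗ₜ b')) = 0) (x y : A ⊗[k] B) :
    (x - π x) * (y - π y) = 0 := by
  induction x using TensorProduct.induction_on with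
  | zero => simp
  | add x x' h1 h2 => rw [map_add]; linear_combination h1 + h2
  | tmul a b =>
    induction y using TensorProduct.induction_on with
    | zero => simp
    | add y y' h1 h2 => rw [map_add]; linear_combination h1 + h2
    | tmul a' b' => exact h _ _ _ _

theorem lA_sq {π : A →ₐ[k] A} (h : ∀ a b, (a - π a) * (b - π b) = 0) (x y : A ⊗[k] B) :
    (x - lA B π x) * (y - lA B π y) = 0 :=
  sq_of_tmul _ (fun a b a' b' => by
    rw [lA_tmul, lA_tmul, ← sub_tmul, ← sub_tmul, Algebra.TensorProduct.tmul_mul_tmul, h,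
      zero_tmul]) x y

theorem rA_sq {π : B →ₐ[k] B} (h : ∀ a b, (a - π a) * (b - π b) = 0) (x y : A ⊗[k] B) :
    (x - rA A π x) * (y - rA A π y) = 0 :=
  sq_of_tmul _ (fun a b a' b' => by
    rw [rA_tmul, rA_tmul, ← tmul_sub, ← tmul_sub, Algebra.TensorProduct.tmul_mul_tmul, h,
      tmul_zero]) x y

/-- The product of two functionals. -/
noncomputable def tF (σ : A →ₗ[k] k) (τ : B →ₗ[k] k) : A ⊗[k] B →ₗ[k] k :=
  TensorProduct.lift ((LinearMap.mul k k).compl₁₂ σ τ)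

theorem tF_tmul (σ : A →ₗ[k] k) (τ : B →ₗ[k] k) (a : A) (b : B) :
    tF σ τ (a ⊗ₜ b) = σ a * τ b := by simp [tF]

theorem mat_map' (f : A →+* B) (v : Fin 3 → A) : (mat v).map f = mat (fun i => f (v i)) :=
  mat_map f.toAddMonoidHom v

/-- The bracket in coordinates. -/
def br (a b : Fin 3 → A) : Fin 3 → A :=
  ![a 1 * b 2 - a 2 * b 1, (a 0 * b 1 - a 1 * b 0) + (a 0 * b 1 - a 1 * b 0),
    (a 2 * b 0 - a 0 * b 2) + (a 2 * b 0 - a 0 * b 2)]

theorem mat_br (a b : Fin 3 → A) : mat (br a b) = mat a * mat b - mat b * mat a := by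
  ext i l
  fin_cases i <;> fin_cases l <;> simp [mat, br] <;> ring

end

theorem frob_tensor {p : ℕ} [Fact p.Prime] {A B : Type} [CommRing A] [Algebra (ZMod p) A]
    [CommRing B] [Algebra (ZMod p) B] {ε : A →ₐ[ZMod p] ZMod p} {η : B →ₐ[ZMod p] ZMod p}
    (h1 : ∀ a, a ^ p = algebraMap _ _ (ε a)) (h2 : ∀ a, a ^ p = algebraMap _ _ (η a))
    (x : A ⊗[ZMod p] B) :
    x ^ p = algebraMap _ _ (Algebra.TensorProduct.productMap ε η x) := by
  induction x using TensorProduct.induction_on with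
  | zero => simp [(Fact.out : p.Prime).ne_zero]
  | add x x' h1 h2 => rw [add_pow_p (p := p) (Commute.all _ _), h1, h2, map_add, map_add]
  | tmul a b =>
    rw [Algebra.TensorProduct.tmul_pow, h1, h2, Algebra.TensorProduct.productMap_apply_tmul,
      Algebra.algebraMap_eq_smul_one, Algebra.algebraMap_eq_smul_one,
      Algebra.algebraMap_eq_smul_one, smul_tmul_smul]
    rfl

/-- Multilinear functions of auxiliary generic vectors with a balanced commutator of depth `n`. -/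
structure Tow (p : ℕ) [Fact p.Prime] (n : ℕ) where
  R : Type
  [cR : CommRing R]
  [aR : Algebra (ZMod p) R]
  [fR : Module.Finite (ZMod p) R]
  D : R →ₗ[ZMod p] R
  hD : LDer D
  ε : R →ₐ[ZMod p] ZMod p
  frob : ∀ a, a ^ p = algebraMap _ _ (ε a)
  L : List (R →ₐ[ZMod p] R)
  LD : ∀ π ∈ L, ∀ a, D (π a) = π (D a)
  Lsq : ∀ π ∈ L, ∀ a b, (a - π a) * (b - π b) = 0
  Lprod : ∀ a, L.prod a = algebraMap _ _ (ε a)
  u : Fin 3 → R
  lev : Lev D.toAddMonoidHom (RingHom.ker ε) n (mat u)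
  σ : Fin 3 → R →ₗ[ZMod p] ZMod p
  c : ZMod p
  hc : c ≠ 0
  σu : ∀ a b, σ a (u b) = if a = b then c else 0
  σ0 : ∀ r, σ 0 (D r) = - (σ 1 r + σ 1 r)
  σ1 : ∀ r, σ 1 (D r) = 0
  σ2 : ∀ r, σ 2 (D r) = σ 0 r

attribute [instance] Tow.cR Tow.aR Tow.fR

variable {p : ℕ} [Fact p.Prime]

theorem exists_tow_zero (h5 : 5 ≤ p) : Nonempty (Tow p 0) := by
  have d0 : LDer (0 : ZMod p →ₗ[ZMod p] ZMod p) := fun a b => by simp
  have f := finite_TZ (k := ZMod p) (ZMod p)
  let ε : TZ (ZMod p) →ₐ[ZMod p] ZMod p := fstHom _ _ _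
  have hε : ∀ z, ε z = z.fst := fun z => rfl
  let σ : Fin 3 → TZ (ZMod p) →ₗ[ZMod p] ZMod p :=
    fun a => { toFun := fun z => z.snd a, map_add' := fun y z => by simp,
               map_smul' := fun c z => by simp }
  have hσ : ∀ a z, σ a z = z.snd a := fun a z => rfl
  have hsq : ∀ a b : TZ (ZMod p), a.fst = 0 → b.fst = 0 → a * b = 0 := by
    intro a b ha hb
    refine TrivSqZeroExt.ext (by rw [fst_mul, ha, zero_mul]; rfl) (funext fun i => ?_)
    rw [tz_mul, ha, hb]; simp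
  have hv : IsVec (tzD (0 : ZMod p →ₗ[ZMod p] ZMod p)) (tzW (ZMod p)) := by
    have := vec_inl_add d0 (v := fun _ => 0) ⟨rfl, by simp, rfl⟩
    simpa using this
  refine ⟨Tow.mk (TZ (ZMod p)) (tzD 0) (tzD_der d0) ε ?_ [(Algebra.ofId _ _).comp ε] ?_ ?_ ?_
    (tzW _) ⟨DM_mat hv, trace_mat _, ⟨RingHom.ker ε, ?_, ?_⟩, ?_⟩ σ 1 one_ne_zero ?_ ?_ ?_ ?_⟩
  · intro a
    have h1 : a = algebraMap _ _ (ε a) + inr a.snd := (inl_fst_add_inr_snd_eq a).symm
    have h2 : (inr a.snd : TZ (ZMod p)) ^ p = 0 := by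
      rw [show (inr a.snd : TZ (ZMod p)) ^ p = inr a.snd ^ (p - 2) * (inr a.snd * inr a.snd) by
        rw [← pow_two, ← pow_add]; congr 1; omega, hsq (inr a.snd) (inr a.snd) rfl rfl,
        mul_zero]
    conv_lhs => rw [h1]
    rw [add_pow_p (p := p) (Commute.all _ _), h2, add_zero, ← map_pow, ZMod.pow_card]
  · intro π hπ a
    rw [List.mem_singleton.1 hπ]
    change tzD 0 (algebraMap _ _ (ε a)) = algebraMap _ _ (ε (tzD 0 a))
    rw [(tzD_der d0).alg, hε, tzD_fst]; simp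
  · intro π hπ a b
    rw [List.mem_singleton.1 hπ]
    exact hsq _ _ (sub_self a.fst) (sub_self b.fst)
  · intro a
    rw [List.prod_singleton]; rfl
  · rw [eq_bot_iff, Ideal.mul_le]
    intro a ha b hb
    exact hsq a b ha hb
  · intro i l
    fin_cases i <;> fin_cases l <;> simp [mat, hε, tzW_fst]
  · intro i l
    fin_cases i <;> fin_cases l <;> simp [mat, hε, tzW_fst]
  · intro a b
    rw [hσ, tzW_snd]
  · intro r
    rw [hσ, hσ, tzD_0]; simp [two_mul]
  · intro r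
    rw [hσ, tzD_1]; simp
  · intro r
    rw [hσ, hσ, tzD_2]; simp

theorem Tow.step (h5 : 5 ≤ p) {n : ℕ} (W : Tow p n) : Nonempty (Tow p (n + 1)) := by
  let iL : W.R →ₐ[ZMod p] W.R ⊗[ZMod p] W.R := Algebra.TensorProduct.includeLeft
  let iR : W.R →ₐ[ZMod p] W.R ⊗[ZMod p] W.R := Algebra.TensorProduct.includeRight
  have eL : ∀ a, iL a = a ⊗ₜ 1 := fun a => rfl
  have eR : ∀ a, iR a = 1 ⊗ₜ a := fun a => rfl
  let σ : Fin 3 → W.R ⊗[ZMod p] W.R →ₗ[ZMod p] ZMod p :=
    ![(tF (W.σ 1) (W.σ 2) - tF (W.σ 2) (W.σ 1)) + (tF (W.σ 1) (W.σ 2) - tF (W.σ 2) (W.σ 1)),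
      tF (W.σ 0) (W.σ 1) - tF (W.σ 1) (W.σ 0), tF (W.σ 2) (W.σ 0) - tF (W.σ 0) (W.σ 2)]
  obtain ⟨h, hh⟩ := exists_half h5 (ZMod p)
  have h2 : (2 : ZMod p) ≠ 0 := left_ne_zero_of_mul_eq_one hh
  refine ⟨Tow.mk (W.R ⊗[ZMod p] W.R) (tD W.D W.D) (tD_der W.hD W.hD)
    (Algebra.TensorProduct.productMap W.ε W.ε) (frob_tensor W.frob W.frob)
    (W.L.map (lA W.R) ++ W.L.map (rA W.R)) ?_ ?_ ?_
    (br (fun i => iL (W.u i)) (fun i => iR (W.u i))) ⟨_, _, Lev.map iL.toRingHom ?_ ?_ n _ W.lev,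
      Lev.map iR.toRingHom ?_ ?_ n _ W.lev, ?_⟩ σ (2 * 2 * (W.c * W.c))
    (mul_ne_zero (mul_ne_zero h2 h2) (mul_ne_zero W.hc W.hc)) ?_ ?_ ?_ ?_⟩
  · intro π hπ
    rcases List.mem_append.1 hπ with hπ | hπ <;> obtain ⟨π', h1, rfl⟩ := List.mem_map.1 hπ
    exacts [lA_D _ (W.LD _ h1), rA_D _ (W.LD _ h1)]
  · intro π hπ
    rcases List.mem_append.1 hπ with hπ | hπ <;> obtain ⟨π', h1, rfl⟩ := List.mem_map.1 hπ
    exacts [lA_sq (W.Lsq _ h1), rA_sq (W.Lsq _ h1)]
  · intro x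
    induction x using TensorProduct.induction_on with
    | zero => simp
    | add x x' h1 h2 => simp only [map_add, h1, h2]
    | tmul a b =>
      rw [List.prod_append, AlgHom.mul_apply, rA_prod, lA_prod, W.Lprod, W.Lprod,
        Algebra.TensorProduct.productMap_apply_tmul, Algebra.algebraMap_eq_smul_one,
        Algebra.algebraMap_eq_smul_one, Algebra.algebraMap_eq_smul_one, smul_tmul_smul]
      rfl
  · intro a
    change tD W.D W.D (a ⊗ₜ 1) = W.D a ⊗ₜ 1
    rw [tD_tmul, W.hD.one, tmul_zero, add_zero]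
  · intro a ha
    change Algebra.TensorProduct.productMap W.ε W.ε (a ⊗ₜ 1) = 0
    rw [Algebra.TensorProduct.productMap_apply_tmul, RingHom.mem_ker.1 ha, zero_mul]
  · intro a
    change tD W.D W.D (1 ⊗ₜ a) = 1 ⊗ₜ W.D a
    rw [tD_tmul, W.hD.one, zero_tmul, zero_add]
  · intro a ha
    change Algebra.TensorProduct.productMap W.ε W.ε (1 ⊗ₜ a) = 0
    rw [Algebra.TensorProduct.productMap_apply_tmul, RingHom.mem_ker.1 ha, mul_zero]
  · rw [mat_br, mat_map', mat_map']
    rfl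
  · intro a b
    fin_cases a <;> fin_cases b <;>
      simp [σ, br, eL, eR, tF_tmul, W.σu] <;> ring
  · intro x
    induction x using TensorProduct.induction_on with
    | zero => simp
    | add x x' h1 h2 => simp only [map_add, h1, h2]; ring
    | tmul a b => simp [σ, tD_tmul, tF_tmul, W.σ1, W.σ2]
  · intro x
    induction x using TensorProduct.induction_on with
    | zero => simp
    | add x x' h1 h2 => simp only [map_add, h1, h2]; ring
    | tmul a b => simp [σ, tD_tmul, tF_tmul, W.σ0, W.σ1]; ring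
  · intro x
    induction x using TensorProduct.induction_on with
    | zero => simp
    | add x x' h1 h2 => simp only [map_add, h1, h2]
    | tmul a b => simp [σ, tD_tmul, tF_tmul, W.σ0, W.σ2]; ring

theorem exists_tow (h5 : 5 ≤ p) : ∀ n, Nonempty (Tow p n)
  | 0 => exists_tow_zero h5
  | n + 1 => (exists_tow h5 n).elim fun W => W.step h5

end Pool.Agent.P.MP_29765e_al.All
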