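import Pool.Agent.P.MP_29765e_al.All.Free

set_option autoImplicit false

namespace Pool.Agent.P.MP_29765e_al.All

open MvPolynomial Matrix

/-- The Leibniz rule for a linear map. -/
def LDer {k A : Type} [CommRing k] [CommRing A] [Algebra k A] (d : A →ₗ[k] A) : Prop :=
  ∀ a b, d (a * b) = d a * b + a * d b

/-- The coordinates of an invariant traceless matrix. -/
def IsVec {k A : Type} [CommRing k] [CommRing A] [Algebra k A] (d : A →ₗ[k] A)
    (v : Fin 3 → A) : Prop := d (v 0) = v 2 ∧ d (v 1) = - (2 * v 0) ∧ d (v 2) = 0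

/-- The traceless matrix with given coordinates. -/
def mat {A : Type} [CommRing A] (v : Fin 3 → A) : M2 A := !![v 0, v 1; v 2, - v 0]

section

variable {k A : Type} [CommRing k] [CommRing A] [Algebra k A] {d : A →ₗ[k] A}

theorem LDer.one (h : LDer d) : d 1 = 0 := by
  have := h 1 1
  simpa using this

theorem LDer.alg (h : LDer d) (c : k) : d (algebraMap k A c) = 0 := by
  rw [Algebra.algebraMap_eq_smul_one, map_smul, h.one, smul_zero]

theorem der_aeval (h : LDer d) {v : Fin 3 → A} (hv : IsVec d v) (f : PP k) :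
    d (aeval v f) = aeval v (DP k f) := by
  have hX : ∀ i, d (v i) = aeval v (DP k (X i)) := by
    intro i
    fin_cases i
    · change d (v 0) = aeval v (DP k (X 0))
      rw [DP_X0, aeval_X, hv.1]
    · change d (v 1) = aeval v (DP k (X 1))
      rw [DP_X1, map_neg, map_mul, aeval_X, map_ofNat, hv.2.1]
    · change d (v 2) = aeval v (DP k (X 2))
      rw [DP_X2, map_zero, hv.2.2]
  induction f using MvPolynomial.induction_on with
  | C c => rw [DP_C, map_zero, algHom_C, h.alg]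
  | add f g hf hg => simp only [map_add, hf, hg]
  | mul_X f i hf => rw [map_mul, h, DP_mul, hf, aeval_X, hX, map_add, map_mul, map_mul, aeval_X]

theorem trace_mat (v : Fin 3 → A) : trace (mat v) = 0 := by simp [mat, Matrix.trace_fin_two]

theorem DM_mat {v : Fin 3 → A} (hv : IsVec d v) : DM d.toAddMonoidHom (mat v) = 0 := by
  rw [DM_eq]
  ext i l
  fin_cases i <;> fin_cases l <;> simp [mat, hv.1, hv.2.1, hv.2.2]
  ring

theorem mat_map {B : Type} [CommRing B] (f : A →+ B) (v : Fin 3 → A) :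
    (mat v).map f = mat (fun i => f (v i)) := by
  ext i l
  fin_cases i <;> fin_cases l <;> simp [mat]

theorem exists_vec {m : M2 A} (h1 : DM d.toAddMonoidHom m = 0) (h2 : trace m = 0) :
    ∃ v, IsVec d v ∧ m = mat v := by
  rw [Matrix.trace_fin_two] at h2
  have h3 : m 1 1 = - m 0 0 := by linear_combination h2
  rw [DM_eq] at h1
  have a1 := congrFun (congrFun h1 0) 0
  have a2 := congrFun (congrFun h1 0) 1
  have a3 := congrFun (congrFun h1 1) 0
  simp only [LinearMap.toAddMonoidHom_coe, of_apply, cons_val', cons_val_zero, cons_val_one,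
    cons_val_fin_one, Matrix.zero_apply, h3] at a1 a2 a3
  refine ⟨![m 0 0, m 0 1, m 1 0], ⟨?_, ?_, a3⟩, ?_⟩
  · change d (m 0 0) = m 1 0
    linear_combination a1
  · change d (m 0 1) = - (2 * m 0 0)
    linear_combination a2
  · ext i l
    fin_cases i <;> fin_cases l <;> simp [mat, h3]

theorem pderiv_DP (f : PP k) : pderiv 0 (DP k f) = DP k (pderiv 0 f) - 2 * pderiv 1 f ∧
    pderiv 1 (DP k f) = DP k (pderiv 1 f) ∧ pderiv 2 (DP k f) = DP k (pderiv 2 f) + pderiv 0 f := by
  have h2 : ∀ i : Fin 3, pderiv i (2 : PP k) = 0 := fun i => by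
    rw [← map_ofNat C 2, pderiv_C]
  induction f using MvPolynomial.induction_on with
  | C c => simp
  | add f g hf hg =>
    simp only [map_add, hf.1, hf.2.1, hf.2.2, hg.1, hg.2.1, hg.2.2]
    exact ⟨by ring, trivial, by ring⟩
  | mul_X f i hf =>
    simp only [DP_mul, map_add, pderiv_mul, hf.1, hf.2.1, hf.2.2]
    refine ⟨?_, ?_, ?_⟩ <;> fin_cases i <;> simp [DP_X0, DP_X1, DP_X2, h2] <;> ring

end

section

variable {p : ℕ} [Fact p.Prime]

theorem succ_cast : (((p - 1 + 1 : ℕ) : ZMod p)) = 0 := by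
  rw [Nat.sub_add_cancel (Fact.out : p.Prime).one_le, ZMod.natCast_self]

theorem engel_poly (h5 : 5 ≤ p) : Neg (DP (ZMod p) : PP (ZMod p) →ₗ[ZMod p] PP (ZMod p)).toAddMonoidHom
    (mat (X : Fin 3 → PP (ZMod p)) ^ (p - 2)) := by
  obtain ⟨h, hh⟩ := exists_half h5 (ZMod p)
  obtain ⟨Φ, h1, -⟩ := exists_Phi hh (succ_cast (p := p))
  obtain ⟨m, hm⟩ : ∃ m, p = 2 * m + 3 := by
    obtain ⟨m, hm⟩ := (Fact.out : p.Prime).odd_of_ne_two (by omega)
    exact ⟨m - 1, by omega⟩
  let q : PP (ZMod p) := X 0 * X 0 + X 1 * X 2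
  have hq : q.IsHomogeneous 2 := ((isHomogeneous_X _ _).mul (isHomogeneous_X _ _)).add
    ((isHomogeneous_X _ _).mul (isHomogeneous_X _ _))
  have hq' : (q ^ (m + 1)).IsHomogeneous (p - 1) := by
    have := hq.pow (m + 1)
    rwa [show 2 * (m + 1) = p - 1 by omega] at this
  have hD : DP (ZMod p) q = 0 := by
    simp only [q, map_add, DP_mul, DP_X0, DP_X1, DP_X2]; ring
  have h2 := h1 (q ^ (m + 1))
  rw [Derivation.leibniz_pow, hD, smul_zero, smul_zero, map_zero, sub_zero,
    homogeneousComponent_eq_self hq'] at h2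
  obtain ⟨e0, e1, e2⟩ := pderiv_DP (Φ (q ^ (m + 1)))
  rw [h2, pderiv_pow] at e0 e1 e2
  have q0 : pderiv 0 q = 2 * X 0 := by simp [q]; ring
  have q1 : pderiv 1 q = X 2 := by simp [q]
  have q2 : pderiv 2 q = X 1 := by simp [q]
  have hp : 2 * ((m + 1 : ℕ) : PP (ZMod p)) + 1 = 0 := by
    have : ((p : ℕ) : PP (ZMod p)) = 0 := CharP.cast_eq_zero _ p
    rw [← this]
    conv_rhs => rw [show ((p : ℕ) : PP (ZMod p)) = ((2 * m + 3 : ℕ) : PP (ZMod p)) from
      congrArg Nat.cast hm]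
    push_cast; ring
  rw [Nat.add_sub_cancel] at e0 e1 e2
  rw [q0] at e0
  rw [q1] at e1
  rw [q2] at e2
  have hd : -(mat (X : Fin 3 → PP (ZMod p))).det = q := by
    simp [mat, Matrix.det_fin_two, q]; ring
  generalize Φ (q ^ (m + 1)) = P at *
  refine ⟨!![- pderiv 0 P, - (pderiv 2 P + pderiv 2 P); - (pderiv 1 P + pderiv 1 P), pderiv 0 P],
    ?_⟩
  rw [show p - 2 = 2 * m + 1 by omega, pow_odd_traceless (trace_mat _), hd, DM_eq]
  generalize ((m + 1 : ℕ) : PP (ZMod p)) = c at *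
  ext1 i l
  fin_cases i <;> fin_cases l <;> simp [mat]
  · linear_combination (q ^ m * X 0) * hp - e0
  · linear_combination (q ^ m * X 1) * hp - 2 * e2
  · linear_combination (q ^ m * X 2) * hp - 2 * e1
  · linear_combination - (q ^ m * X 0) * hp + e0

theorem engel_gen (h5 : 5 ≤ p) {A : Type} [CommRing A] [Algebra (ZMod p) A]
    {d : A →ₗ[ZMod p] A} (h : LDer d) (m : M2 A) (h1 : DM d.toAddMonoidHom m = 0)
    (h2 : trace m = 0) : Neg d.toAddMonoidHom (m ^ (p - 2)) := by
  obtain ⟨v, hv, rfl⟩ := exists_vec h1 h2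
  have h3 := Neg.map
    (D := (DP (ZMod p) : PP (ZMod p) →ₗ[ZMod p] PP (ZMod p)).toAddMonoidHom)
    (D' := d.toAddMonoidHom)
    (aeval v : PP (ZMod p) →ₐ[ZMod p] A).toRingHom.toAddMonoidHom (fun a => der_aeval h hv a)
    (engel_poly h5)
  have h4 : (mat (X : Fin 3 → PP (ZMod p))).map (aeval v : PP (ZMod p) →ₐ[ZMod p] A).toRingHom
      = mat v := by
    ext i l
    fin_cases i <;> fin_cases l <;> simp [mat]
  rw [← h4, ← Matrix.map_pow]
  exact h3

end

/-- Adjoining a generic vector to first order. -/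
abbrev TZ (A : Type) [CommRing A] := TrivSqZeroExt A (Fin 3 → A)

section

variable {k A : Type} [CommRing k] [CommRing A] [Algebra k A] {d : A →ₗ[k] A}

open TrivSqZeroExt

/-- The extended derivation. -/
def tzD (d : A →ₗ[k] A) : TZ A →ₗ[k] TZ A where
  toFun z := inl (d z.fst) +
    inr ![d (z.snd 0) - 2 * z.snd 1, d (z.snd 1), d (z.snd 2) + z.snd 0]
  map_add' a b := by
    refine TrivSqZeroExt.ext (by simp) (funext fun i => ?_)
    fin_cases i <;> simp <;> ring
  map_smul' c a := by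
    refine TrivSqZeroExt.ext (by simp) (funext fun i => ?_)
    fin_cases i <;> simp [smul_sub]

theorem tzD_fst (z : TZ A) : (tzD d z).fst = d z.fst := by simp [tzD]
theorem tzD_0 (z : TZ A) : (tzD d z).snd 0 = d (z.snd 0) - 2 * z.snd 1 := by simp [tzD]
theorem tzD_1 (z : TZ A) : (tzD d z).snd 1 = d (z.snd 1) := by simp [tzD]
theorem tzD_2 (z : TZ A) : (tzD d z).snd 2 = d (z.snd 2) + z.snd 0 := by simp [tzD]

theorem tz_ext {a b : TZ A} (h : a.fst = b.fst) (h0 : a.snd 0 = b.snd 0) (h1 : a.snd 1 = b.snd 1)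
    (h2 : a.snd 2 = b.snd 2) : a = b := by
  refine TrivSqZeroExt.ext h (funext fun i => ?_)
  fin_cases i
  exacts [h0, h1, h2]

theorem tz_mul (a b : TZ A) (i : Fin 3) :
    (a * b).snd i = a.fst * b.snd i + a.snd i * b.fst := by
  simp [snd_mul, mul_comm]

theorem tzD_der (h : LDer d) : LDer (tzD d) := by
  intro a b
  refine tz_ext ?_ ?_ ?_ ?_ <;>
    simp only [tzD_fst, tzD_0, tzD_1, tzD_2, fst_add, snd_add, Pi.add_apply, fst_mul, tz_mul,
      map_add, h _ _] <;> ring

/-- The degree operator. -/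
def tzE (k A : Type) [CommRing k] [CommRing A] [Algebra k A] : TZ A →ₗ[k] TZ A where
  toFun z := inr z.snd
  map_add' a b := by simp
  map_smul' c a := by simp

theorem tzE_fst (z : TZ A) : (tzE k A z).fst = 0 := rfl
theorem tzE_snd (z : TZ A) : (tzE k A z).snd = z.snd := rfl

theorem tzE_der : LDer (tzE k A) := by
  intro a b
  refine tz_ext ?_ ?_ ?_ ?_ <;>
    simp only [tzE_fst, tzE_snd, fst_add, snd_add, Pi.add_apply, fst_mul, tz_mul] <;> ring

theorem tzD_E (z : TZ A) : tzD d (tzE k A z) = tzE k A (tzD d z) := by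
  refine tz_ext ?_ ?_ ?_ ?_ <;>
    simp only [tzE_fst, tzE_snd, tzD_fst, tzD_0, tzD_1, tzD_2, map_zero]

/-- The generic vector. -/
def tzW (A : Type) [CommRing A] (b : Fin 3) : TZ A := inr (Pi.single b 1)

theorem tzW_fst (b : Fin 3) : (tzW A b).fst = 0 := rfl
theorem tzW_snd (a b : Fin 3) : (tzW A b).snd a = if a = b then 1 else 0 := by
  simp [tzW, Pi.single_apply]

theorem vec_inl_add (h : LDer d) {v : Fin 3 → A} (hv : IsVec d v) :
    IsVec (tzD d) (fun a => inl (v a) + tzW A a) := by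
  have h2 : (2 : TZ A) = inl 2 := (map_ofNat (inlHom A (Fin 3 → A)) 2).symm
  refine ⟨?_, ?_, ?_⟩ <;> refine tz_ext ?_ ?_ ?_ ?_ <;>
    simp [tzD_fst, tzD_0, tzD_1, tzD_2, tzW_fst, tzW_snd, hv.1, hv.2.1, hv.2.2, h.one, h2]

end

end Pool.Agent.P.MP_29765e_al.All
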